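import Pool.Agent.Q197.IT.Lower

/-!
# The thresholds of the types
-/

set_option autoImplicit false
set_option linter.unusedSectionVars false

namespace Pool.Agent.Q197.IT

open Finset Filter Pool.Agent.Q197.CI
open scoped Topology

/-- The exceptional numbers of the type `(a, b)`. -/
def Ex2 (S : Set ℕ) (a b : ℕ) : Set ℕ := {n | ¬ IsRep S a b (2 * n)}

/-- The first side. -/
def Up (S : Set ℕ) : Prop := ∀ ε : ℝ, 0 < ε → ∀ᶠ n : ℕ in atTop, ∀ a b : ℕ,
    ((a + b + 2 : ℕ) : ℝ) * Real.log (Real.log n) ≤ (1 - ε) * Real.log n → IsRep S a b n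

theorem loglog_div : Tendsto (fun X : ℕ => Real.log (Real.log X) / Real.log X) atTop (𝓝 0) := by
  have h1 : Tendsto (fun x : ℝ => Real.log x / x ^ (1 : ℝ)) atTop (𝓝 0) :=
    (isLittleO_log_rpow_atTop (by norm_num)).tendsto_div_nhds_zero
  refine (h1.comp log_nat_top).congr (fun X => ?_)
  simp only [Function.comp]
  rw [Real.rpow_one]

theorem ex_finite {S : Set ℕ} (hU : Up S) (a b : ℕ) : (Ex2 S a b).Finite := by
  have h1 : ∀ᶠ n : ℕ in atTop, IsRep S a b n := by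
    filter_upwards [hU (1 / 2) (by norm_num), loglog_div.eventually_lt_const
      (show (0 : ℝ) < 1 / (2 * ((a + b + 2 : ℕ) : ℝ)) by positivity), log_nat_top.eventually_ge_atTop 1] with n h1 h2 h3
    refine h1 a b ?_
    have hL : 0 < Real.log (n : ℝ) := by linarith
    rw [div_lt_iff₀ hL] at h2
    have h4 : (0 : ℝ) < ((a + b + 2 : ℕ) : ℝ) := by positivity
    calc ((a + b + 2 : ℕ) : ℝ) * Real.log (Real.log n) ≤ ((a + b + 2 : ℕ) : ℝ) * (1 / (2 * ((a + b + 2 : ℕ) : ℝ)) * Real.log n) :=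
          mul_le_mul_of_nonneg_left h2.le h4.le
      _ = (1 - 1 / 2) * Real.log n := by
          field_simp
          ring
  obtain ⟨n0, hn0⟩ := eventually_atTop.1 h1
  refine (Set.finite_Iio n0).subset (fun n hn => ?_)
  rw [Set.mem_Iio]
  by_contra hcon
  exact hn (hn0 (2 * n) (by omega))

/-- The scale. -/
noncomputable def sc1 (s : ℕ) : ℝ := s * Real.log s

theorem sc1_top : Tendsto sc1 atTop atTop := by
  have h1 : Tendsto (fun s : ℕ => (s : ℝ) * Real.log s) atTop atTop :=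
    tendsto_natCast_atTop_atTop.atTop_mul_atTop₀ log_nat_top
  exact h1

theorem up_side {S : Set ℕ} (hU : Up S) {ε : ℝ} (hε : 0 < ε) (hε1 : ε ≤ 1) : ∀ᶠ s : ℕ in atTop, ∀ a b : ℕ, a + b = s →
    ∀ n ∈ Ex2 S a b, Real.log n ≤ (1 + ε) * sc1 s := by
  obtain ⟨n0, hn0⟩ := eventually_atTop.1 (hU (ε / 4) (by positivity))
  filter_upwards [sc1_top.eventually_ge_atTop (Real.log n0), loglog_div.eventually_lt_const (show (0 : ℝ) < ε / 16 by positivity),
    log_nat_top.eventually_ge_atTop (32 / ε), eventually_ge_atTop 2,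
    tendsto_natCast_atTop_atTop.eventually_ge_atTop (32 / ε)] with s h1 h2 h3 h4 h5 a b hab n hn
  by_contra hcon
  push Not at hcon
  have h32 : 32 ≤ 32 / ε := by rw [le_div_iff₀ hε]; linarith
  obtain ⟨l, hl⟩ : ∃ l : ℝ, l = Real.log s := ⟨_, rfl⟩
  obtain ⟨T, hT⟩ : ∃ T : ℝ, T = sc1 s := ⟨_, rfl⟩
  have hTl : T = s * l := by rw [hT, hl]; rfl
  rw [← hT] at h1 hcon
  rw [← hl] at h2 h3
  have hs2 : (2 : ℝ) ≤ s := by exact_mod_cast h4
  have hl0 : 0 < l := by linarith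
  have hT0 : 0 < T := by rw [hTl]; positivity
  rw [div_lt_iff₀ hl0] at h2
  have hn1 : 1 ≤ n := by
    by_contra hc
    have : n = 0 := by omega
    rw [this, Nat.cast_zero, Real.log_zero] at hcon
    nlinarith
  have hnr : (1 : ℝ) ≤ n := by exact_mod_cast hn1
  obtain ⟨L, hL⟩ : ∃ L : ℝ, L = Real.log ((2 * n : ℕ) : ℝ) := ⟨_, rfl⟩
  have hnL : Real.log n ≤ L := by
    rw [hL]
    refine Real.log_le_log (by linarith) ?_
    push_cast
    linarith
  have hLT : (1 + ε) * T ≤ L := by linarith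
  have hL0 : 0 < L := lt_of_lt_of_le (by positivity) hLT
  have hn02 : n0 ≤ 2 * n := by
    by_contra hc
    push Not at hc
    have h6 : L ≤ Real.log n0 := by
      rw [hL]
      refine Real.log_le_log (by push_cast; linarith) ?_
      exact_mod_cast hc.le
    nlinarith
  refine hn (hn0 (2 * n) hn02 a b ?_)
  rw [← hL]
  have hcast : ((a + b + 2 : ℕ) : ℝ) = (s : ℝ) + 2 := by rw [← hab]; push_cast; ring
  rw [hcast]
  -- the logarithm of `L`
  obtain ⟨t, ht⟩ : ∃ t : ℝ, t = L / T := ⟨_, rfl⟩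
  have hLt : L = t * T := by rw [ht]; field_simp
  have ht1 : 1 + ε ≤ t := by
    rw [ht, le_div_iff₀ hT0]
    exact hLT
  have ht0 : 0 < t := by linarith
  have e1 : Real.log L = Real.log t + (l + Real.log l) := by
    rw [hLt, Real.log_mul ht0.ne' hT0.ne', hTl, Real.log_mul (by positivity) hl0.ne', ← hl]
  have e2 : Real.log t ≤ t := by
    have := Real.log_le_sub_one_of_pos ht0
    linarith
  have e3 : (s : ℝ) + 2 ≤ (1 + ε / 16) * s := by
    rw [div_le_iff₀ hε] at h5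
    nlinarith
  have e4 : (s : ℝ) + 2 ≤ ε / 16 * T := by
    rw [hTl]
    rw [div_le_iff₀ hε] at h3
    nlinarith
  have e5 : ((s : ℝ) + 2) * Real.log t ≤ ε / 16 * T * t :=
    mul_le_mul e4 e2 (Real.log_nonneg (by linarith)) (by positivity)
  have e6 : ((s : ℝ) + 2) * (l + Real.log l) ≤ (1 + ε / 16) * s * ((1 + ε / 16) * l) := by
    refine mul_le_mul e3 (by nlinarith) ?_ (by positivity)
    have : 0 ≤ Real.log l := Real.log_nonneg (by linarith)
    linarith
  have e7 : (1 + ε / 16) * (s : ℝ) * ((1 + ε / 16) * l) = (1 + ε / 16) ^ 2 * T := by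
    rw [hTl]
    ring
  rw [e1, mul_add, hLt]
  have e8 : (1 + ε / 16) ^ 2 ≤ (1 + ε) * (1 - ε / 4 - ε / 16) := by nlinarith
  have e9 : (1 + ε) * (1 - ε / 4 - ε / 16) ≤ t * (1 - ε / 4 - ε / 16) :=
    mul_le_mul_of_nonneg_right ht1 (by linarith)
  have e10 : (1 + ε / 16) ^ 2 * T ≤ t * (1 - ε / 4 - ε / 16) * T := mul_le_mul_of_nonneg_right (e8.trans e9) hT0.le
  calc ((s : ℝ) + 2) * Real.log t + (s + 2) * (l + Real.log l) ≤ ε / 16 * T * t + t * (1 - ε / 4 - ε / 16) * T := by linarith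
    _ = (1 - ε / 4) * (t * T) := by ring

theorem low_side {S : Set ℕ} (hS : Law S) {ε : ℝ} (hε : 0 < ε) (hε1 : ε ≤ 1) : ∀ᶠ s : ℕ in atTop, ∀ a b : ℕ, a + b = s →
    ∃ n ∈ Ex2 S a b, (1 - ε) * sc1 s ≤ Real.log n := by
  obtain ⟨n1, hn1⟩ := eventually_atTop.1 (lower hS (ε := ε / 4) (by positivity) (by linarith))
  filter_upwards [sc1_top.eventually_ge_atTop (2 * Real.log (2 * n1 + 2)), sc1_top.eventually_ge_atTop (8 / ε),
    log_nat_top.eventually_ge_atTop 2, eventually_ge_atTop 2, sc1_top.eventually_ge_atTop 4] with s h1 h2 h3 h4 h6 a b hab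
  obtain ⟨l, hl⟩ : ∃ l : ℝ, l = Real.log s := ⟨_, rfl⟩
  obtain ⟨T, hT⟩ : ∃ T : ℝ, T = sc1 s := ⟨_, rfl⟩
  have hTl : T = s * l := by rw [hT, hl]; rfl
  rw [← hT] at h1 h2 h6 ⊢
  rw [← hl] at h3
  have hs2 : (2 : ℝ) ≤ s := by exact_mod_cast h4
  have hl2 := log_two_lt_one
  have hT0 : 0 < T := by linarith
  rw [div_le_iff₀ hε] at h2
  obtain ⟨c, hc⟩ : ∃ c : ℝ, c = 1 - ε / 2 := ⟨_, rfl⟩
  have hc2 : 1 / 2 ≤ c := by rw [hc]; linarith
  obtain ⟨n, hn⟩ : ∃ n : ℕ, n = ⌊Real.exp (c * T)⌋₊ := ⟨_, rfl⟩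
  have hexp2 : 2 ≤ Real.exp (c * T) := by
    have e1 := Real.add_one_le_exp (c * T)
    have e2 : 1 / 2 * T ≤ c * T := mul_le_mul_of_nonneg_right hc2 hT0.le
    linarith
  have hn_le : (n : ℝ) ≤ Real.exp (c * T) := by rw [hn]; exact Nat.floor_le (Real.exp_pos _).le
  have hn_gt : Real.exp (c * T) < n + 1 := by rw [hn]; exact Nat.lt_floor_add_one _
  have hn_half : Real.exp (c * T) ≤ 2 * n := by linarith
  have hnn1 : n1 ≤ n := by
    have e1 : Real.exp (Real.log (2 * n1 + 2)) ≤ Real.exp (c * T) := by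
      refine Real.exp_le_exp.2 ?_
      nlinarith
    rw [Real.exp_log (by positivity)] at e1
    have e2 : (n1 : ℝ) ≤ n := by
      have : (0 : ℝ) ≤ n1 := Nat.cast_nonneg _
      linarith
    exact_mod_cast e2
  have hn0 : (0 : ℝ) < n := by linarith
  obtain ⟨L, hL⟩ : ∃ L : ℝ, L = Real.log ((2 * n : ℕ) : ℝ) := ⟨_, rfl⟩
  have hcast2 : ((2 * n : ℕ) : ℝ) = 2 * n := by push_cast; ring
  have hL1 : c * T ≤ L := by
    rw [hL, hcast2, ← Real.log_exp (c * T)]
    exact Real.log_le_log (Real.exp_pos _) hn_half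
  have hL2 : L ≤ c * T + Real.log 2 := by
    rw [hL, hcast2, Real.log_mul (by norm_num) hn0.ne']
    have : Real.log n ≤ c * T := by
      rw [← Real.log_exp (c * T)]
      exact Real.log_le_log hn0 hn_le
    linarith
  have hsL : (s : ℝ) ≤ L := by
    refine le_trans ?_ hL1
    rw [hTl]
    nlinarith
  have hlL : l ≤ Real.log L := by
    rw [hl]
    exact Real.log_le_log (by linarith) hsL
  have hcast : ((a + b + 2 : ℕ) : ℝ) = (s : ℝ) + 2 := by rw [← hab]; push_cast; ring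
  obtain ⟨k, hk1, hk2, hk3⟩ := hn1 n hnn1 a b (by
    rw [← hL, hcast]
    have e1 : L ≤ (1 - ε / 4) * T := by
      rw [hc] at hL2
      nlinarith
    have e2 : (1 + ε / 4) * L ≤ (1 + ε / 4) * ((1 - ε / 4) * T) := mul_le_mul_of_nonneg_left e1 (by positivity)
    have e3 : (1 + ε / 4) * ((1 - ε / 4) * T) ≤ T := by nlinarith
    have e4 : (s : ℝ) * l ≤ (s + 2) * Real.log L := mul_le_mul (by linarith) hlL (by linarith) (by positivity)
    linarith)
  refine ⟨k, hk3, ?_⟩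
  have hk4 : (n : ℝ) < 2 * k := by exact_mod_cast hk1
  have e1 : Real.exp (c * T) ≤ 4 * k := by linarith
  have hk0 : (0 : ℝ) < k := by linarith
  have e2 := Real.log_le_log (Real.exp_pos _) e1
  rw [Real.log_exp, Real.log_mul (by norm_num) hk0.ne'] at e2
  have e3 : Real.log 4 = 2 * Real.log 2 := by
    rw [show (4 : ℝ) = 2 ^ 2 by norm_num, Real.log_pow]
    norm_num
  rw [e3, hc] at e2
  nlinarith

theorem cofinite_of_sum {P : ℕ × ℕ → Prop} (h : ∀ᶠ s : ℕ in atTop, ∀ a b : ℕ, a + b = s → P (a, b)) :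
    ∀ᶠ v : ℕ × ℕ in cofinite, P v := by
  obtain ⟨s0, hs0⟩ := eventually_atTop.1 h
  rw [eventually_cofinite]
  refine ((range s0 ×ˢ range s0 : Finset (ℕ × ℕ)).finite_toSet).subset (fun v hv => ?_)
  rw [mem_coe, mem_product, mem_range, mem_range]
  by_contra hcon
  exact hv (hs0 (v.1 + v.2) (by omega) v.1 v.2 rfl)

/-- **The law of the thresholds.** -/
theorem thresh {S : Set ℕ} (hS : Law S) (hU : Up S) : Tendsto (fun v : ℕ × ℕ =>
    Real.log ((sSup (Ex2 S v.1 v.2) : ℕ) : ℝ) / (((v.1 : ℝ) + v.2) * Real.log ((v.1 : ℝ) + v.2))) cofinite (𝓝 1) := by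
  rw [Metric.tendsto_nhds]
  intro ε hε
  obtain ⟨η, hη⟩ : ∃ η : ℝ, η = min (ε / 2) 1 := ⟨_, rfl⟩
  have hη0 : 0 < η := by rw [hη]; positivity
  have hη1 : η ≤ 1 := by rw [hη]; exact min_le_right _ _
  have hηε : η < ε := by
    have : η ≤ ε / 2 := by rw [hη]; exact min_le_left _ _
    linarith
  refine cofinite_of_sum ?_
  filter_upwards [up_side hU hη0 hη1, low_side hS hη0 hη1, sc1_top.eventually_ge_atTop 1] with s h1 h2 h3 a b hab
  obtain ⟨n, hn, hn2⟩ := h2 a b hab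
  have hfin := ex_finite hU a b
  have hmem : sSup (Ex2 S a b) ∈ Ex2 S a b := Nat.sSup_mem ⟨n, hn⟩ hfin.bddAbove
  have hle : n ≤ sSup (Ex2 S a b) := le_csSup hfin.bddAbove hn
  have h4 := h1 a b hab _ hmem
  have hs : (a : ℝ) + b = s := by rw [← hab]; push_cast; ring
  rw [hs]
  change dist (Real.log ((sSup (Ex2 S a b) : ℕ) : ℝ) / sc1 s) 1 < ε
  have hT0 : 0 < sc1 s := by linarith
  have h5 : (1 - η) * sc1 s ≤ Real.log ((sSup (Ex2 S a b) : ℕ) : ℝ) := by
    rcases Nat.eq_zero_or_pos n with h6 | h6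
    · rw [h6, Nat.cast_zero, Real.log_zero] at hn2
      refine hn2.trans (Real.log_natCast_nonneg _)
    · refine hn2.trans (Real.log_le_log (by exact_mod_cast h6) (by exact_mod_cast hle))
  rw [Real.dist_eq, abs_lt]
  constructor
  · have : 1 - η ≤ Real.log ((sSup (Ex2 S a b) : ℕ) : ℝ) / sc1 s := by rwa [le_div_iff₀ hT0]
    linarith
  · have : Real.log ((sSup (Ex2 S a b) : ℕ) : ℝ) / sc1 s ≤ 1 + η := by rwa [div_le_iff₀ hT0]
    linarith

end Pool.Agent.Q197.IT
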