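import Pool.Agent.Q197.BH.Chern
import Pool.Agent.Q197.CI.C5d7

/-!
# Conditioning on a block of a random set with independent elements
-/

set_option autoImplicit false
set_option linter.unusedSectionVars false

namespace Pool.Agent.Q197.IT

open Finset Filter MeasureTheory ProbabilityTheory Pool.Agent.Q197.FM Pool.Agent.Q197.CI Pool.Agent.Q197.BH
  Pool.Agent.Q120.ET Pool.Agent.Q120.MF
open scoped Topology

variable {Ω : Type*} [MeasurableSpace Ω] {μ : Measure Ω} [IsProbabilityMeasure μ] {A : Ω → Set ℕ}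

/-- `Q` depends only on the elements in `V`. -/
def Loc {α : Type*} (V : Finset ℕ) (Q : Set ℕ → α) : Prop :=
  ∀ S S' : Set ℕ, (∀ a ∈ V, (a ∈ S ↔ a ∈ S')) → Q S = Q S'

theorem Loc.mono {α : Type*} {V V' : Finset ℕ} {Q : Set ℕ → α} (h : Loc V Q) (hV : V ⊆ V') : Loc V' Q :=
  fun S S' hS => h S S' (fun a ha => hS a (hV ha))

theorem Loc.inter {V : Finset ℕ} {Q : Set ℕ → Prop} (h : Loc V Q) (S : Set ℕ) : Q S ↔ Q (S ∩ V) := by
  rw [h S (S ∩ V) (fun a ha => ⟨fun h1 => ⟨h1, ha⟩, fun h1 => h1.1⟩)]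

theorem loc_meas (hA : IndepElems μ A) {V : Finset ℕ} {Q : Set ℕ → Prop} (h : Loc V Q) :
    MeasurableSet {ω | Q (A ω)} := by
  classical
  have h1 : {ω | Q (A ω)} = ⋃ U ∈ Finset.filter (fun U : Finset ℕ => Q (U : Set ℕ)) V.powerset, ⋂ a ∈ V, {ω | a ∈ A ω ↔ a ∈ U} := by
    ext ω
    simp only [Set.mem_iUnion, Set.mem_iInter, Set.mem_ofPred_eq, mem_filter, mem_powerset, exists_prop]
    constructor
    · intro h2
      refine ⟨V.filter (fun a => a ∈ A ω), ⟨filter_subset _ _, ?_⟩, fun a ha => ?_⟩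
      · rw [← h (A ω) _ (fun a ha => ?_)]
        · exact h2
        · simp [ha]
      · simp [ha]
    · rintro ⟨U, ⟨_, h3⟩, h4⟩
      rw [h (A ω) U (fun a ha => h4 a ha)]
      exact h3
  rw [h1]
  refine Finset.measurableSet_biUnion _ (fun U _ => Finset.measurableSet_biInter _ (fun a _ => ?_))
  by_cases hU : a ∈ U
  · simp only [hU, iff_true]
    exact hA.meas a
  · simp only [hU, iff_false]
    exact (hA.meas a).compl

/-- Events of disjoint sets of elements are independent. -/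
theorem prob_two (hA : IndepElems μ A) {I V : Finset ℕ} (hIV : Disjoint I V) {Q R : Set ℕ → Prop}
    (hQ : Loc I Q) (hR : Loc V R) :
    μ.real {ω | Q (A ω) ∧ R (A ω)} = μ.real {ω | Q (A ω)} * μ.real {ω | R (A ω)} := by
  have hfun : iIndepFun (fun a => ({ω | a ∈ A ω} : Set Ω).indicator (fun _ => (1 : ℕ))) μ :=
    hA.indep.iIndepFun_indicator
  have h1 := hfun.indepFun_finset I V hIV (fun a => (measurable_const.indicator (hA.meas a)))
  have hmem : ∀ (a : ℕ) (ω : Ω), ({ω | a ∈ A ω} : Set Ω).indicator (fun _ => (1 : ℕ)) ω = 1 ↔ a ∈ A ω := by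
    intro a ω
    by_cases h : a ∈ A ω
    · rw [Set.indicator_of_mem (show ω ∈ {ω | a ∈ A ω} from h)]
      simp [h]
    · rw [Set.indicator_of_notMem (show ω ∉ {ω | a ∈ A ω} from h)]
      simp [h]
  have h2 := h1.measure_inter_preimage_eq_mul {f | Q {a | ∃ h : a ∈ I, f ⟨a, h⟩ = 1}} {f | R {a | ∃ h : a ∈ V, f ⟨a, h⟩ = 1}}
    MeasurableSet.of_discrete MeasurableSet.of_discrete
  have e1 : (fun ω (a : I) => ({ω | (a : ℕ) ∈ A ω} : Set Ω).indicator (fun _ => (1 : ℕ)) ω) ⁻¹'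
      {f | Q {a | ∃ h : a ∈ I, f ⟨a, h⟩ = 1}} = {ω | Q (A ω)} := by
    ext ω
    simp only [Set.mem_preimage, Set.mem_ofPred_eq, hmem]
    rw [hQ {a | ∃ _ : a ∈ I, a ∈ A ω} (A ω) (fun a ha => ⟨fun h => h.2, fun h => ⟨ha, h⟩⟩)]
  have e2 : (fun ω (a : V) => ({ω | (a : ℕ) ∈ A ω} : Set Ω).indicator (fun _ => (1 : ℕ)) ω) ⁻¹'
      {f | R {a | ∃ h : a ∈ V, f ⟨a, h⟩ = 1}} = {ω | R (A ω)} := by
    ext ω
    simp only [Set.mem_preimage, Set.mem_ofPred_eq, hmem]
    rw [hR {a | ∃ _ : a ∈ V, a ∈ A ω} (A ω) (fun a ha => ⟨fun h => h.2, fun h => ⟨ha, h⟩⟩)]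
  rw [e1, e2] at h2
  have e3 : {ω | Q (A ω) ∧ R (A ω)} = {ω | Q (A ω)} ∩ {ω | R (A ω)} := rfl
  rw [e3]
  unfold Measure.real
  rw [h2, ENNReal.toReal_mul]

/-- Conditioning on the elements in `I`. -/
theorem cond_le (hA : IndepElems μ A) {I V : Finset ℕ} (hIV : Disjoint I V) (G : Set ℕ → Prop)
    (R : Set ℕ → Set ℕ → Prop) (hR : ∀ U : Finset ℕ, U ⊆ I → Loc V (R U)) {ε : ℝ} (hε : 0 ≤ ε)
    (h : ∀ U : Finset ℕ, U ⊆ I → G U → μ.real {ω | R U (A ω)} ≤ ε) :
    μ.real {ω | G (A ω ∩ I) ∧ R (A ω ∩ I) (A ω)} ≤ ε := by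
  classical
  obtain ⟨E, hE⟩ : ∃ E : Finset ℕ → Set Ω, E = fun U => {ω | ∀ a ∈ I, (a ∈ A ω ↔ a ∈ U)} := ⟨_, rfl⟩
  have hEl : ∀ U : Finset ℕ, Loc I (fun S : Set ℕ => ∀ a ∈ I, (a ∈ S ↔ a ∈ U)) := by
    intro U S S' hS
    refine propext (forall₂_congr (fun a ha => ?_))
    rw [hS a ha]
  have hEm : ∀ U, MeasurableSet (E U) := by
    intro U
    rw [hE]
    exact loc_meas hA (hEl U)
  have hsub : {ω | G (A ω ∩ I) ∧ R (A ω ∩ I) (A ω)} ⊆
      ⋃ U ∈ Finset.filter (fun U : Finset ℕ => G (U : Set ℕ)) I.powerset, {ω | (∀ a ∈ I, (a ∈ A ω ↔ a ∈ U)) ∧ R U (A ω)} := by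
    intro ω hω
    obtain ⟨h1, h2⟩ := hω
    have h3 : (A ω ∩ I : Set ℕ) = ((I.filter (fun a => a ∈ A ω) : Finset ℕ) : Set ℕ) := by
      ext a
      simp [and_comm]
    rw [h3] at h1 h2
    simp only [Set.mem_iUnion, Set.mem_ofPred_eq, mem_filter, mem_powerset, exists_prop]
    refine ⟨_, ⟨filter_subset _ _, h1⟩, fun a ha => ?_, h2⟩
    simp [ha]
  have hsum : ∑ U ∈ I.powerset, μ.real (E U) ≤ 1 := by
    rw [← measureReal_biUnion_finset (fun U hU U' hU' hne => ?_) (fun U _ => hEm U)]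
    · exact measureReal_le_one
    · rw [Function.onFun, Set.disjoint_left]
      intro ω h1 h2
      rw [hE] at h1 h2
      refine hne ?_
      rw [mem_coe, mem_powerset] at hU hU'
      ext a
      by_cases ha : a ∈ I
      · rw [← h1 a ha, h2 a ha]
      · exact ⟨fun h => absurd (hU h) ha, fun h => absurd (hU' h) ha⟩
  calc μ.real {ω | G (A ω ∩ I) ∧ R (A ω ∩ I) (A ω)}
      ≤ μ.real (⋃ U ∈ Finset.filter (fun U : Finset ℕ => G (U : Set ℕ)) I.powerset, {ω | (∀ a ∈ I, (a ∈ A ω ↔ a ∈ U)) ∧ R U (A ω)}) :=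
        measureReal_mono hsub (measure_ne_top _ _)
    _ ≤ ∑ U ∈ Finset.filter (fun U : Finset ℕ => G (U : Set ℕ)) I.powerset, μ.real {ω | (∀ a ∈ I, (a ∈ A ω ↔ a ∈ U)) ∧ R U (A ω)} :=
        measureReal_biUnion_finset_le _ _
    _ ≤ ∑ U ∈ Finset.filter (fun U : Finset ℕ => G (U : Set ℕ)) I.powerset, μ.real (E U) * ε := by
        refine sum_le_sum (fun U hU => ?_)
        rw [mem_filter, mem_powerset] at hU
        have h1 := prob_two hA hIV (hEl U) (hR U hU.1)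
        rw [h1, hE]
        exact mul_le_mul_of_nonneg_left (h U hU.1 hU.2) measureReal_nonneg
    _ ≤ ∑ U ∈ I.powerset, μ.real (E U) * ε :=
        sum_le_sum_of_subset_of_nonneg (filter_subset _ _) (fun U _ _ => mul_nonneg measureReal_nonneg hε)
    _ = (∑ U ∈ I.powerset, μ.real (E U)) * ε := by rw [sum_mul]
    _ ≤ 1 * ε := mul_le_mul_of_nonneg_right hsum hε
    _ = ε := one_mul ε

/-- Cramér's random set, restricted to the integers `≥ 3`. -/
def r3 (A : Ω → Set ℕ) (ω : Ω) : Set ℕ := {n | 3 ≤ n ∧ n ∈ A ω}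

theorem r3_prob (hA : IsCramer μ A) {n : ℕ} (hn : 3 ≤ n) : μ.real {ω | n ∈ r3 A ω} = 1 / Real.log n := by
  have h1 := hA.law {n} {n} (fun k hk => by rw [mem_singleton] at hk; omega) (Subset.refl _)
  unfold lawOn cramerOn at h1
  rw [prod_singleton, sdiff_self] at h1
  simp only [mem_singleton, forall_eq, iff_true, bot_eq_empty, prod_empty, mul_one] at h1
  rw [← h1]
  congr 1
  ext ω
  simp [r3, hn]

theorem r3_indep (hA : IsCramer μ A) : IndepElems μ (r3 A) := by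
  classical
  have hm : ∀ a : ℕ, MeasurableSet {ω | a ∈ r3 A ω} := by
    intro a
    by_cases ha : 3 ≤ a
    · have : {ω | a ∈ r3 A ω} = {ω | a ∈ A ω} := by
        ext ω
        simp [r3, ha]
      rw [this]
      exact hA.random a
    · have : {ω | a ∈ r3 A ω} = ∅ := by
        ext ω
        simp [r3, ha]
      rw [this]
      exact MeasurableSet.empty
  refine ⟨hm, ?_⟩
  rw [iIndepSet_iff_meas_biInter hm]
  intro s
  by_cases hs : ∀ n ∈ s, 3 ≤ n
  · have h1 := hA.law s s hs (Subset.refl _)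
    unfold lawOn cramerOn at h1
    rw [sdiff_self] at h1
    simp only [bot_eq_empty, prod_empty, mul_one] at h1
    have h2 : {ω | ∀ n ∈ s, (n ∈ A ω ↔ n ∈ s)} = ⋂ i ∈ s, {ω | i ∈ r3 A ω} := by
      ext ω
      simp only [Set.mem_ofPred_eq, Set.mem_iInter]
      refine forall₂_congr (fun n hn => ?_)
      simp [r3, hn, hs n hn]
    rw [h2] at h1
    have h3 : ∏ n ∈ s, 1 / Real.log (n : ℝ) = ∏ n ∈ s, μ.real {ω | n ∈ r3 A ω} :=
      prod_congr rfl (fun n hn => (r3_prob hA (hs n hn)).symm)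
    rw [h3] at h1
    unfold Measure.real at h1
    rw [← ENNReal.toReal_prod] at h1
    exact (ENNReal.toReal_eq_toReal_iff' (measure_ne_top _ _) (ENNReal.prod_ne_top (fun n _ => measure_ne_top _ _))).1 h1
  · push Not at hs
    obtain ⟨n, hn, hn3⟩ := hs
    have h1 : {ω | n ∈ r3 A ω} = ∅ := by
      ext ω
      simp only [r3, Set.mem_ofPred_eq, Set.mem_empty_iff_false, iff_false]
      omega
    rw [prod_eq_zero hn (by rw [h1, measure_empty])]
    refine measure_mono_null (Set.biInter_subset_of_mem hn) ?_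
    rw [h1, measure_empty]

end Pool.Agent.Q197.IT
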