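import Pool.Agent.Q197.IT.Cond

/-!
# Chains of filters
-/

set_option autoImplicit false
set_option linter.unusedSectionVars false

namespace Pool.Agent.Q197.IT

open Finset Filter MeasureTheory ProbabilityTheory Pool.Agent.Q197.FM Pool.Agent.Q197.CI Pool.Agent.Q197.BH
  Pool.Agent.Q120.ET Pool.Agent.Q120.MF
open scoped Topology

variable {Ω : Type*} [MeasurableSpace Ω] {μ : Measure Ω} [IsProbabilityMeasure μ] {A : Ω → Set ℕ}

open Classical in
/-- The number of elements of `S` in `[lo, x)`. -/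
noncomputable def rk (S : Set ℕ) (lo x : ℕ) : ℕ := ((Ico lo x).filter (fun j => j ∈ S)).card

/-- The items whose positions are elements. -/
noncomputable def hit (S : Set ℕ) (lo : ℕ) (T : Finset ℕ) (ρ : ℕ → ℕ) : Finset ℕ := by
  classical exact T.filter (fun t => lo + ρ t ∈ S)

theorem mem_hit {S : Set ℕ} {lo : ℕ} {T : Finset ℕ} {ρ : ℕ → ℕ} {t : ℕ} : t ∈ hit S lo T ρ ↔ t ∈ T ∧ lo + ρ t ∈ S := by
  classical
  unfold hit
  rw [mem_filter]

/-- The next positions. -/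
noncomputable def nx (S : Set ℕ) (lo hi : ℕ) (ρ : ℕ → ℕ) (t : ℕ) : ℕ := rk S lo (min (lo + ρ t) hi)

/-- `k` filters in a row, with unknown blocks, and then the property `K`. -/
def BC (N : ℕ) (K : Finset ℕ → Finset ℕ → Set ℕ → Prop) :
    ℕ → Finset ℕ → ℕ → ℕ → Finset ℕ → (ℕ → ℕ) → Set ℕ → Prop
  | 0, Used, _, _, T, _, S => K Used T S
  | k + 1, Used, lo, hi, T, ρ, S => (3 ≤ lo ∧ hi ≤ N ∧ Disjoint (Ico lo hi) Used ∧ ∀ t ∈ T, lo + ρ t < hi) ∧
      ∃ v ∈ (range (N + 1) ×ˢ range (N + 1)), BC N K k (Used ∪ Ico lo hi) v.1 v.2 (hit S lo T ρ) (nx S lo hi ρ) S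

theorem rk_loc (lo x hi : ℕ) (hx : x ≤ hi) : Loc (Ico lo hi) (fun S => rk S lo x) := by
  classical
  intro S S' hS
  show rk S lo x = rk S' lo x
  unfold rk
  congr 1
  refine filter_congr (fun j hj => ?_)
  rw [mem_Ico] at hj
  exact hS j (mem_Ico.2 ⟨hj.1, by omega⟩)

theorem nx_loc (lo hi : ℕ) (ρ : ℕ → ℕ) : Loc (Ico lo hi) (fun S => nx S lo hi ρ) := by
  intro S S' hS
  funext t
  exact rk_loc lo _ hi (min_le_right _ _) S S' hS

theorem hit_loc (lo hi : ℕ) (T : Finset ℕ) (ρ : ℕ → ℕ) (h : ∀ t ∈ T, lo + ρ t < hi) :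
    Loc (Ico lo hi) (fun S => hit S lo T ρ) := by
  intro S S' hS
  ext t
  show t ∈ hit S lo T ρ ↔ t ∈ hit S' lo T ρ
  rw [mem_hit, mem_hit]
  refine and_congr_right (fun ht => ?_)
  exact hS _ (mem_Ico.2 ⟨by omega, h t ht⟩)

/-- The last step. -/
theorem bc_loc {N : ℕ} {K : Finset ℕ → Finset ℕ → Set ℕ → Prop}
    (hK : ∀ Used T, Loc (Ico 3 N \ Used) (K Used T)) (k : ℕ) :
    ∀ (Used : Finset ℕ) (lo hi : ℕ) (T : Finset ℕ) (ρ : ℕ → ℕ), Loc (Ico 3 N \ Used) (BC N K k Used lo hi T ρ) := by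
  induction k with
  | zero =>
    intro Used lo hi T ρ
    exact hK Used T
  | succ k ih =>
    intro Used lo hi T ρ S S' hS
    unfold BC
    by_cases hc : 3 ≤ lo ∧ hi ≤ N ∧ Disjoint (Ico lo hi) Used ∧ ∀ t ∈ T, lo + ρ t < hi
    · obtain ⟨h1, h2, h3, h4⟩ := hc
      have hsub : Ico lo hi ⊆ Ico 3 N \ Used := by
        intro a ha
        rw [Finset.mem_sdiff]
        refine ⟨?_, fun h => (disjoint_left.1 h3) ha h⟩
        rw [mem_Ico] at ha ⊢
        omega
      have h5 : ∀ a ∈ Ico lo hi, (a ∈ S ↔ a ∈ S') := fun a ha => hS a (hsub ha)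
      have e1 : hit S lo T ρ = hit S' lo T ρ := hit_loc lo hi T ρ h4 S S' h5
      have e2 : nx S lo hi ρ = nx S' lo hi ρ := nx_loc lo hi ρ S S' h5
      rw [e1, e2]
      refine propext (and_congr_right (fun _ => exists_congr (fun v => and_congr_right (fun _ => ?_))))
      rw [ih (Used ∪ Ico lo hi) v.1 v.2 (hit S' lo T ρ) (nx S' lo hi ρ) S S' (fun a ha => hS a ?_)]
      rw [Finset.mem_sdiff] at ha ⊢
      exact ⟨ha.1, fun h => ha.2 (mem_union_left _ h)⟩
    · simp only [hc, false_and]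

theorem rk_lt {S : Set ℕ} {lo x y : ℕ} (hlo : lo ≤ x) (hx : x ∈ S) (hxy : x < y) : rk S lo x < rk S lo y := by
  classical
  unfold rk
  refine card_lt_card ⟨filter_subset_filter _ (fun j hj => ?_), fun h => ?_⟩
  · rw [mem_Ico] at hj ⊢
    omega
  · have h1 : x ∈ (Ico lo y).filter (fun j => j ∈ S) := by
      rw [mem_filter, mem_Ico]
      exact ⟨⟨hlo, hxy⟩, hx⟩
    have h2 := h h1
    rw [mem_filter, mem_Ico] at h2
    omega

theorem nx_inj {S : Set ℕ} {lo hi : ℕ} {T : Finset ℕ} {ρ : ℕ → ℕ} (hρ : Set.InjOn ρ T) (h : ∀ t ∈ T, lo + ρ t < hi) :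
    Set.InjOn (nx S lo hi ρ) (hit S lo T ρ) := by
  intro t ht t' ht' he
  rw [mem_coe, mem_hit] at ht ht'
  have h1 := h t ht.1
  have h2 := h t' ht'.1
  unfold nx at he
  rw [min_eq_left h1.le, min_eq_left h2.le] at he
  refine hρ ht.1 ht'.1 ?_
  rcases lt_trichotomy (ρ t) (ρ t') with h3 | h3 | h3
  · have := rk_lt (S := S) (lo := lo) (x := lo + ρ t) (y := lo + ρ t') (by omega) ht.2 (by omega)
    omega
  · exact h3
  · have := rk_lt (S := S) (lo := lo) (x := lo + ρ t') (y := lo + ρ t) (by omega) ht'.2 (by omega)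
    omega

/-- One filter. -/
theorem filter_tail (hA : IndepElems μ A) {N : ℕ} {τ : ℝ} (hτ : 0 < τ)
    (hτN : ∀ a : ℕ, 3 ≤ a → a < N → τ ≤ μ.real {ω | a ∈ A ω}) {lo hi : ℕ} (hlo : 3 ≤ lo) (hhi : hi ≤ N)
    {T : Finset ℕ} {ρ : ℕ → ℕ} (hρ : Set.InjOn ρ T) (h : ∀ t ∈ T, lo + ρ t < hi) (hT : T.Nonempty) :
    μ.real {ω | ((hit (A ω) lo T ρ).card : ℝ) ≤ T.card * τ / 2} ≤ Real.exp (-(T.card * τ / 16)) := by
  obtain ⟨W, hW⟩ : ∃ W : ℕ → Finset ℕ, W = fun t => {lo + ρ t} := ⟨_, rfl⟩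
  have hpw : ∀ t ∈ T, τ ≤ pw μ A (W t) := by
    intro t ht
    rw [hW]
    unfold pw
    rw [prod_singleton]
    exact hτN _ (by omega) (by have := h t ht; omega)
  have hdis : ∀ i ∈ T, ∀ j ∈ T, i ≠ j → Disjoint (W i) (W j) := by
    intro i hi j hj hij
    rw [hW]
    show Disjoint ({lo + ρ i} : Finset ℕ) {lo + ρ j}
    rw [disjoint_singleton]
    exact fun he => hij (hρ hi hj (by omega))
  obtain ⟨M, hM⟩ : ∃ M : ℝ, M = ∑ i ∈ T, pw μ A (W i) := ⟨_, rfl⟩
  have hMτ : (T.card : ℝ) * τ ≤ M := by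
    rw [hM, ← nsmul_eq_mul]
    exact card_nsmul_le_sum _ _ _ hpw
  have hT0 : (0 : ℝ) < T.card := by exact_mod_cast hT.card_pos
  have hM0 : 0 < M := lt_of_lt_of_le (mul_pos hT0 hτ) hMτ
  have h1 := lower_tail hA T W hdis (t := M / 2) (M := M) hM0 (by linarith) (by linarith) (le_of_eq hM.symm)
  rw [← hM] at h1
  have h2 : {ω | ((hit (A ω) lo T ρ).card : ℝ) ≤ T.card * τ / 2} ⊆ {ω | sc W T (A ω) ≤ M - M / 2} := by
    intro ω hω
    simp only [Set.mem_ofPred_eq] at hω ⊢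
    have h3 : sc W T (A ω) = ((hit (A ω) lo T ρ).card : ℝ) := by
      unfold sc hit
      rw [hW]
      congr 2
      ext t
      simp
    rw [h3]
    linarith
  refine (measureReal_mono h2 (measure_ne_top _ _)).trans (h1.trans (Real.exp_le_exp.2 ?_))
  have h4 : (M / 2) ^ 2 / (4 * M) = M / 16 := by
    field_simp
    norm_num
  rw [h4]
  linarith

/-- **The chain.** -/
theorem bc_prob (hA : IndepElems μ A) {N : ℕ} {τ : ℝ} (hτ : 0 < τ) (hτ1 : τ ≤ 1)
    (hτN : ∀ a : ℕ, 3 ≤ a → a < N → τ ≤ μ.real {ω | a ∈ A ω}) {K : Finset ℕ → Finset ℕ → Set ℕ → Prop}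
    (hKl : ∀ Used T, Loc (Ico 3 N \ Used) (K Used T)) {m κ : ℝ} (hm : 0 < m) (hκ : 0 ≤ κ)
    (hK : ∀ Used T : Finset ℕ, m ≤ T.card → μ.real {ω | K Used T (A ω)} ≤ κ) (k : ℕ) :
    ∀ (Used : Finset ℕ) (lo hi : ℕ) (T : Finset ℕ) (ρ : ℕ → ℕ), Set.InjOn ρ T → m ≤ T.card * (τ / 2) ^ k →
      μ.real {ω | BC N K k Used lo hi T ρ (A ω)} ≤ ((N : ℝ) + 1) ^ (2 * k) * (κ + k * Real.exp (-(m / 16))) := by
  induction k with
  | zero =>
    intro Used lo hi T ρ _ hT
    rw [pow_zero, mul_one] at hT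
    have := hK Used T hT
    unfold BC
    simpa using this
  | succ k ih =>
    intro Used lo hi T ρ hρ hT
    have hN0 : (0 : ℝ) ≤ N := Nat.cast_nonneg N
    have hRHS : 0 ≤ ((N : ℝ) + 1) ^ (2 * (k + 1)) * (κ + ((k + 1 : ℕ) : ℝ) * Real.exp (-(m / 16))) := by positivity
    by_cases hc : 3 ≤ lo ∧ hi ≤ N ∧ Disjoint (Ico lo hi) Used ∧ ∀ t ∈ T, lo + ρ t < hi
    · obtain ⟨h1, h2, h3, h4⟩ := hc
      have hT0 : T.Nonempty := by
        rw [nonempty_iff_ne_empty]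
        rintro rfl
        rw [card_empty, Nat.cast_zero, zero_mul] at hT
        linarith
      have htail := filter_tail hA hτ hτN h1 h2 hρ h4 hT0
      have hTτ : m ≤ T.card * τ := by
        refine hT.trans ?_
        have h5 : (τ / 2) ^ (k + 1) ≤ τ := by
          rw [pow_succ]
          have h6 : (τ / 2) ^ k ≤ 1 := pow_le_one₀ (by linarith) (by linarith)
          nlinarith
        exact mul_le_mul_of_nonneg_left h5 (Nat.cast_nonneg _)
      obtain ⟨b, hb⟩ : ∃ b : ℝ, b = ((N : ℝ) + 1) ^ (2 * k) * (κ + k * Real.exp (-(m / 16))) := ⟨_, rfl⟩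
      have hb0 : 0 ≤ b := by rw [hb]; positivity
      have hsub : {ω | BC N K (k + 1) Used lo hi T ρ (A ω)} ⊆ {ω | ((hit (A ω) lo T ρ).card : ℝ) ≤ T.card * τ / 2} ∪
          ⋃ v ∈ range (N + 1) ×ˢ range (N + 1), {ω | (T.card * τ / 2 < (hit (A ω ∩ (Ico lo hi : Finset ℕ)) lo T ρ).card) ∧
            BC N K k (Used ∪ Ico lo hi) v.1 v.2 (hit (A ω ∩ (Ico lo hi : Finset ℕ)) lo T ρ)
              (nx (A ω ∩ (Ico lo hi : Finset ℕ)) lo hi ρ) (A ω)} := by
        intro ω hω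
        rw [Set.mem_ofPred_eq] at hω
        unfold BC at hω
        obtain ⟨_, v, hv, hω⟩ := hω
        have e0 : ∀ a ∈ Ico lo hi, (a ∈ A ω ↔ a ∈ A ω ∩ (Ico lo hi : Finset ℕ)) :=
          fun a ha => ⟨fun h => ⟨h, ha⟩, fun h => h.1⟩
        have e1 : hit (A ω) lo T ρ = hit (A ω ∩ (Ico lo hi : Finset ℕ)) lo T ρ := hit_loc lo hi T ρ h4 _ _ e0
        have e2 : nx (A ω) lo hi ρ = nx (A ω ∩ (Ico lo hi : Finset ℕ)) lo hi ρ := nx_loc lo hi ρ _ _ e0
        rw [e1, e2] at hω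
        rcases le_or_gt (((hit (A ω) lo T ρ).card : ℝ)) (T.card * τ / 2) with h5 | h5
        · exact Or.inl h5
        · refine Or.inr ?_
          simp only [Set.mem_iUnion, exists_prop]
          rw [e1] at h5
          exact ⟨v, hv, h5, hω⟩
      have hI : Disjoint (Ico lo hi) (Ico 3 N \ (Used ∪ Ico lo hi)) := by
        rw [disjoint_left]
        intro a ha h
        rw [Finset.mem_sdiff] at h
        exact h.2 (mem_union_right _ ha)
      have hv : ∀ v : ℕ × ℕ, μ.real {ω | (T.card * τ / 2 < (hit (A ω ∩ (Ico lo hi : Finset ℕ)) lo T ρ).card) ∧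
            BC N K k (Used ∪ Ico lo hi) v.1 v.2 (hit (A ω ∩ (Ico lo hi : Finset ℕ)) lo T ρ)
              (nx (A ω ∩ (Ico lo hi : Finset ℕ)) lo hi ρ) (A ω)} ≤ b := by
        intro v
        refine cond_le hA hI (fun S => T.card * τ / 2 < (hit S lo T ρ).card)
          (fun U S => BC N K k (Used ∪ Ico lo hi) v.1 v.2 (hit U lo T ρ) (nx U lo hi ρ) S) (fun U _ => ?_) hb0
          (fun U _ hU => ?_)
        · exact bc_loc hKl k _ _ _ _ _
        · rw [hb]
          refine ih _ _ _ _ _ (nx_inj hρ h4) (hT.trans ?_)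
          rw [pow_succ]
          have : 0 ≤ (τ / 2) ^ k := by positivity
          nlinarith
      have hsum : μ.real (⋃ v ∈ range (N + 1) ×ˢ range (N + 1), {ω | (T.card * τ / 2 < (hit (A ω ∩ (Ico lo hi : Finset ℕ)) lo T ρ).card) ∧
            BC N K k (Used ∪ Ico lo hi) v.1 v.2 (hit (A ω ∩ (Ico lo hi : Finset ℕ)) lo T ρ)
              (nx (A ω ∩ (Ico lo hi : Finset ℕ)) lo hi ρ) (A ω)}) ≤ ((N : ℝ) + 1) ^ 2 * b := by
        refine (measureReal_biUnion_finset_le _ _).trans ((sum_le_sum (fun v _ => hv v)).trans (le_of_eq ?_))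
        rw [sum_const, card_product, card_range, nsmul_eq_mul]
        push_cast
        ring
      have hexp : Real.exp (-(T.card * τ / 16)) ≤ Real.exp (-(m / 16)) := by
        refine Real.exp_le_exp.2 ?_
        linarith
      have hN1 : (1 : ℝ) ≤ ((N : ℝ) + 1) ^ (2 * (k + 1)) := one_le_pow₀ (by linarith)
      calc μ.real {ω | BC N K (k + 1) Used lo hi T ρ (A ω)} ≤ Real.exp (-(m / 16)) + ((N : ℝ) + 1) ^ 2 * b := by
            refine (measureReal_mono hsub (measure_ne_top _ _)).trans ((measureReal_union_le _ _).trans ?_)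
            exact add_le_add (htail.trans hexp) hsum
        _ ≤ ((N : ℝ) + 1) ^ (2 * (k + 1)) * Real.exp (-(m / 16)) + ((N : ℝ) + 1) ^ 2 * b := by
            have := Real.exp_pos (-(m / 16))
            nlinarith
        _ = ((N : ℝ) + 1) ^ (2 * (k + 1)) * (κ + ((k + 1 : ℕ) : ℝ) * Real.exp (-(m / 16))) := by
            rw [hb]
            push_cast
            ring
    · refine le_trans (le_of_eq ?_) hRHS
      have : {ω | BC N K (k + 1) Used lo hi T ρ (A ω)} = ∅ := by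
        ext ω
        simp only [Set.mem_ofPred_eq, Set.mem_empty_iff_false, iff_false]
        unfold BC
        exact fun h => hc h.1
      rw [this, measureReal_empty]

end Pool.Agent.Q197.IT
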