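import Pool.Agent.Q197.IT.Chain

/-!
# The chain of the true blocks
-/

set_option autoImplicit false
set_option linter.unusedSectionVars false

namespace Pool.Agent.Q197.IT

open Finset Filter Pool.Agent.Q197.CI
open scoped Topology

/-- `fs S x = m + 1` if `x` has `m` elements of `S` below. -/
noncomputable def fs (S : Set ℕ) (x : ℕ) : ℕ := ct S x + 1

theorem fs_mono (S : Set ℕ) : Monotone (fs S) := fun x y h => by
  unfold fs
  have := ct_mono S h
  omega

theorem fs_le {S : Set ℕ} {x : ℕ} (hx : 1 ≤ x) : fs S x ≤ x := by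
  unfold fs
  have := ct_le_sub S x
  omega

theorem fs_pos (S : Set ℕ) (x : ℕ) : 1 ≤ fs S x := by unfold fs; omega

theorem it_pos {S : Set ℕ} {x : ℕ} (hx : 1 ≤ x) (j : ℕ) : 1 ≤ (fs S)^[j] x := by
  cases j with
  | zero => exact hx
  | succ j =>
    rw [Function.iterate_succ_apply']
    exact fs_pos S _

theorem it_mono (S : Set ℕ) (j : ℕ) {x y : ℕ} (h : x ≤ y) : (fs S)^[j] x ≤ (fs S)^[j] y :=
  (fs_mono S).iterate j h

theorem it_anti {S : Set ℕ} {x : ℕ} (hx : 1 ≤ x) {i j : ℕ} (h : i ≤ j) : (fs S)^[j] x ≤ (fs S)^[i] x := by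
  induction j, h using Nat.le_induction with
  | base => exact le_rfl
  | succ j hj ih =>
    rw [Function.iterate_succ_apply']
    exact (fs_le (it_pos hx j)).trans ih

theorem it_sep {S : Set ℕ} {u v : ℕ} (hv : 1 ≤ v) (h : fs S v ≤ u) {i j : ℕ} (hij : i < j) :
    (fs S)^[j] v ≤ (fs S)^[i] u := by
  refine (it_anti hv (show i + 1 ≤ j from hij)).trans ?_
  rw [Function.iterate_succ_apply]
  exact it_mono S i h

theorem ct_add_rk {S : Set ℕ} {lo x : ℕ} (hlo : 3 ≤ lo) (hx : lo ≤ x) : ct S lo + rk S lo x = ct S x := by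
  classical
  unfold ct rk
  rw [← card_union_of_disjoint]
  · congr 1
    ext j
    simp only [mem_union, mem_filter, mem_Ico]
    constructor
    · rintro (⟨⟨h1, h2⟩, h3⟩ | ⟨⟨h1, h2⟩, h3⟩)
      · exact ⟨⟨h1, by omega⟩, h3⟩
      · exact ⟨⟨by omega, h2⟩, h3⟩
    · rintro ⟨⟨h1, h2⟩, h3⟩
      rcases lt_or_ge j lo with h4 | h4
      · exact Or.inl ⟨⟨h1, h4⟩, h3⟩
      · exact Or.inr ⟨⟨h4, h2⟩, h3⟩
  · rw [disjoint_left]
    intro j h1 h2
    rw [mem_filter, mem_Ico] at h1 h2
    omega

theorem isPr_iff_it (S : Set ℕ) (a : ℕ) : ∀ x : ℕ, IsPr a S x ↔ ∀ j < a + 1, 3 ≤ (fs S)^[j] x ∧ (fs S)^[j] x ∈ S := by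
  induction a with
  | zero =>
    intro x
    unfold IsPr
    constructor
    · intro h j hj
      have : j = 0 := by omega
      subst this
      exact h
    · intro h
      exact h 0 (by omega)
  | succ a ih =>
    intro x
    unfold IsPr
    rw [show ct S x + 1 = fs S x from rfl, ih (fs S x)]
    constructor
    · rintro ⟨h1, h2⟩ j hj
      cases j with
      | zero => exact h1
      | succ j =>
        have := h2 j (by omega)
        rw [← Function.iterate_succ_apply] at this
        exact this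
    · intro h
      refine ⟨h 0 (by omega), fun j hj => ?_⟩
      have := h (j + 1) (by omega)
      rw [Function.iterate_succ_apply] at this
      exact this

/-- The true blocks. -/
noncomputable def bl (S : Set ℕ) (lo hi k : ℕ) : Finset ℕ :=
  (range k).biUnion (fun j => Ico ((fs S)^[j] lo) ((fs S)^[j] hi))

theorem mem_bl {S : Set ℕ} {lo hi k a : ℕ} : a ∈ bl S lo hi k ↔ ∃ j < k, (fs S)^[j] lo ≤ a ∧ a < (fs S)^[j] hi := by
  unfold bl
  rw [mem_biUnion]
  simp only [mem_range, mem_Ico]

theorem bl_succ (S : Set ℕ) (lo hi k : ℕ) : bl S lo hi (k + 1) = Ico lo hi ∪ bl S (fs S lo) (fs S hi) k := by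
  ext a
  rw [mem_union, mem_bl, mem_bl, mem_Ico]
  constructor
  · rintro ⟨j, hj, h⟩
    cases j with
    | zero => exact Or.inl h
    | succ j => exact Or.inr ⟨j, by omega, h⟩
  · rintro (h | ⟨j, hj, h⟩)
    · exact ⟨0, by omega, h⟩
    · exact ⟨j + 1, by omega, h⟩

/-- The survivors. -/
noncomputable def sv (S : Set ℕ) (k lo : ℕ) (T : Finset ℕ) (ρ : ℕ → ℕ) : Finset ℕ := by
  classical exact T.filter (fun t => ∀ j < k, (fs S)^[j] (lo + ρ t) ∈ S)

theorem mem_sv {S : Set ℕ} {k lo : ℕ} {T : Finset ℕ} {ρ : ℕ → ℕ} {t : ℕ} :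
    t ∈ sv S k lo T ρ ↔ t ∈ T ∧ ∀ j < k, (fs S)^[j] (lo + ρ t) ∈ S := by
  classical
  unfold sv
  rw [mem_filter]

theorem bc_of {S : Set ℕ} {N : ℕ} {K : Finset ℕ → Finset ℕ → Set ℕ → Prop} (k : ℕ) :
    ∀ (Used : Finset ℕ) (lo hi : ℕ) (T : Finset ℕ) (ρ : ℕ → ℕ), 1 ≤ lo → lo ≤ hi → hi ≤ N → (∀ j < k, 3 ≤ (fs S)^[j] lo) →
      (∀ j < k, Disjoint (Ico ((fs S)^[j] lo) ((fs S)^[j] hi)) (Used ∪ bl S lo hi j)) → (∀ t ∈ T, lo + ρ t < hi) →
      K (Used ∪ bl S lo hi k) (sv S k lo T ρ) S → BC N K k Used lo hi T ρ S := by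
  induction k with
  | zero =>
    intro Used lo hi T ρ _ _ _ _ _ _ hK
    unfold BC
    have h1 : bl S lo hi 0 = ∅ := by simp [bl]
    have h2 : sv S 0 lo T ρ = T := by
      ext t
      rw [mem_sv]
      simp
    rw [h1, h2, union_empty] at hK
    exact hK
  | succ k ih =>
    intro Used lo hi T ρ h1 h1' hN h3 hd hT hK
    have hlo : 3 ≤ lo := h3 0 (by omega)
    unfold BC
    refine ⟨⟨hlo, hN, ?_, hT⟩, (fs S lo, fs S hi), ?_, ?_⟩
    · have := hd 0 (by omega)
      rw [disjoint_union_right] at this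
      exact this.1
    · rw [mem_product, mem_range, mem_range]
      have e1 := fs_le (S := S) h1
      have e2 := fs_le (S := S) (h1.trans h1')
      simp only
      omega
    have hnx : ∀ t ∈ T, fs S lo + nx S lo hi ρ t = fs S (lo + ρ t) := by
      intro t ht
      unfold nx fs
      rw [min_eq_left (hT t ht).le]
      have := ct_add_rk (S := S) hlo (show lo ≤ lo + ρ t by omega)
      omega
    refine ih _ _ _ _ _ (fs_pos S lo) (fs_mono S h1') ((fs_le (h1.trans h1')).trans hN) (fun j hj => ?_) (fun j hj => ?_)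
      (fun t ht => ?_) ?_
    · have := h3 (j + 1) (by omega)
      rwa [Function.iterate_succ_apply] at this
    · have := hd (j + 1) (by omega)
      rw [Function.iterate_succ_apply, Function.iterate_succ_apply, bl_succ, ← union_assoc] at this
      exact this
    · show fs S lo + nx S lo hi ρ t < fs S hi
      rw [mem_hit] at ht
      rw [hnx t ht.1]
      have h4 := hT t ht.1
      have h5 := ct_mono S (show lo + ρ t + 1 ≤ hi by omega)
      rw [ct_succ_of_mem (by omega) ht.2] at h5
      unfold fs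
      omega
    · rw [bl_succ, ← union_assoc] at hK
      have h4 : sv S k (fs S lo) (hit S lo T ρ) (nx S lo hi ρ) = sv S (k + 1) lo T ρ := by
        ext t
        rw [mem_sv, mem_sv, mem_hit]
        constructor
        · rintro ⟨⟨h5, h6⟩, h7⟩
          refine ⟨h5, fun j hj => ?_⟩
          cases j with
          | zero => exact h6
          | succ j =>
            have := h7 j (by omega)
            rw [hnx t h5] at this
            exact this
        · rintro ⟨h5, h6⟩
          refine ⟨⟨h5, h6 0 (by omega)⟩, fun j hj => ?_⟩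
          have := h6 (j + 1) (by omega)
          rw [Function.iterate_succ_apply] at this
          rw [hnx t h5]
          exact this
      rw [← h4] at hK
      exact hK

/-- No survivors at the end. -/
def K0 (_ T : Finset ℕ) (_ : Set ℕ) : Prop := T = ∅

/-- The second chain. -/
def K1 (N b e H : ℕ) (Used T : Finset ℕ) (S : Set ℕ) : Prop :=
  BC N K0 (b + 1) Used e (e + H) T (fun t => H - 1 - t) S

/-- `n` is the sum of two different elements, of order `a` and `b`. -/
def IsRep (S : Set ℕ) (a b n : ℕ) : Prop := ∃ x y : ℕ, IsPr a S x ∧ IsPr b S y ∧ x + y = n ∧ x ≠ y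

theorem chain_of_not_rep {S : Set ℕ} {N n a b c e H : ℕ} (hn : c + H + e = n + 1) (hce : c + H ≤ e) (hH : 1 ≤ H)
    (hN : e + H ≤ N) (hF : fs S (e + H) ≤ c) (h3 : ∀ j < max a b + 1, 3 ≤ (fs S)^[j] c) (hR : ¬ IsRep S a b n) :
    BC N (K1 N b e H) (a + 1) ∅ c (c + H) (range H) id S := by
  have hc3 : 3 ≤ c := h3 0 (by omega)
  have he3 : ∀ j < max a b + 1, 3 ≤ (fs S)^[j] e := fun j hj => (h3 j hj).trans (it_mono S j (by omega))
  refine bc_of (a + 1) ∅ c (c + H) (range H) id (by omega) (by omega) (by omega) (fun j hj => h3 j (by omega))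
    (fun j hj => ?_) (fun t ht => ?_) ?_
  · rw [empty_union, disjoint_left]
    intro z hz hz2
    rw [mem_Ico] at hz
    rw [mem_bl] at hz2
    obtain ⟨i, hi, hi2, _⟩ := hz2
    have h4 := it_sep (S := S) (u := c) (v := c + H) (by omega) ((fs_mono S (show c + H ≤ e + H by omega)).trans hF) hi
    omega
  · rw [mem_range] at ht
    simp only [id]
    omega
  · unfold K1
    refine bc_of (b + 1) _ e (e + H) _ _ (by omega) (by omega) hN (fun j hj => he3 j (by omega)) (fun j hj => ?_)
      (fun t ht => ?_) ?_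
    · rw [disjoint_left]
      intro z hz hz2
      rw [mem_Ico] at hz
      rw [mem_union, empty_union, mem_bl, mem_bl] at hz2
      rcases hz2 with ⟨i, hi, hi2, hi3⟩ | ⟨i, hi, hi2, _⟩
      · rcases Nat.lt_or_ge i j with h4 | h4
        · have h5 := it_sep (S := S) (u := c) (v := e + H) (by omega) hF h4
          omega
        · have h5 := it_anti (S := S) (x := c + H) (by omega) h4
          have h6 := it_mono S j hce
          omega
      · have h4 := it_sep (S := S) (u := e) (v := e + H) (by omega) (hF.trans (by omega)) hi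
        omega
    · rw [mem_sv, mem_range] at ht
      omega
    · unfold K0
      rw [eq_empty_iff_forall_notMem]
      intro t ht
      rw [mem_sv, mem_sv, mem_range] at ht
      obtain ⟨⟨h4, h5⟩, h6⟩ := ht
      refine hR ⟨c + t, e + (H - 1 - t), ?_, ?_, by omega, by omega⟩
      · rw [isPr_iff_it]
        intro j hj
        exact ⟨(h3 j (by omega)).trans (it_mono S j (by omega)), h5 j hj⟩
      · rw [isPr_iff_it]
        intro j hj
        exact ⟨(he3 j (by omega)).trans (it_mono S j (by omega)), h6 j hj⟩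

end Pool.Agent.Q197.IT
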