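import Pool.Agent.Q197.IT.Upper

/-!
# Few elements of high order
-/

set_option autoImplicit false
set_option linter.unusedSectionVars false

namespace Pool.Agent.Q197.IT

open Finset Filter Pool.Agent.Q197.CI
open scoped Topology

/-- The number of the elements up to `h`. -/
noncomputable def gt (S : Set ℕ) (h : ℕ) : ℕ := ct S (h + 1)

theorem gt_le (S : Set ℕ) (h : ℕ) : gt S h ≤ h - 2 := by
  unfold gt
  have := ct_le_sub S (h + 1)
  omega

theorem gt_zero (S : Set ℕ) : gt S 0 = 0 := by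
  have := gt_le S 0
  omega

theorem gt_it_zero (S : Set ℕ) (k : ℕ) : (gt S)^[k] 0 = 0 := by
  induction k with
  | zero => rfl
  | succ k ih => rw [Function.iterate_succ_apply, gt_zero, ih]

theorem gt_it_le (S : Set ℕ) (k h : ℕ) : (gt S)^[k] h ≤ h - 2 * k := by
  induction k with
  | zero => simp
  | succ k ih =>
    rw [Function.iterate_succ_apply']
    have := gt_le S ((gt S)^[k] h)
    omega

theorem gt_it_of_zero {S : Set ℕ} {k K h : ℕ} (hk : K ≤ k) (h0 : (gt S)^[K] h = 0) : (gt S)^[k] h = 0 := by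
  obtain ⟨i, rfl⟩ := Nat.exists_eq_add_of_le' hk
  rw [Function.iterate_add_apply, h0, gt_it_zero]

theorem shrink {S : Set ℕ} {Y q : ℝ} (hq : 1 ≤ q) (h : ∀ x : ℕ, Y < x → (gt S x : ℝ) ≤ x / q) (k x : ℕ) :
    ((gt S)^[k] x : ℝ) ≤ max Y (x / q ^ k) := by
  induction k with
  | zero => simp
  | succ k ih =>
    rw [Function.iterate_succ_apply']
    obtain ⟨y, hy⟩ : ∃ y : ℕ, y = (gt S)^[k] x := ⟨_, rfl⟩
    rw [← hy] at ih ⊢
    rcases le_or_gt (y : ℝ) Y with h1 | h1
    · refine le_max_of_le_left (le_trans ?_ h1)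
      have := gt_le S y
      exact_mod_cast (by omega : gt S y ≤ y)
    · refine le_max_of_le_right ?_
      have h2 : (y : ℝ) ≤ x / q ^ k := by
        rcases le_max_iff.1 ih with h3 | h3
        · linarith
        · exact h3
      refine (h y h1).trans ?_
      rw [pow_succ, ← div_div]
      exact div_le_div_of_nonneg_right h2 (by linarith)

/-- The law of the counts. -/
def Law (S : Set ℕ) : Prop := Tendsto (fun x : ℕ => (ct S x : ℝ) * Real.log x / x) atTop (𝓝 1)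

theorem gt_law {S : Set ℕ} (hS : Law S) : ∃ X0 : ℕ, 64 ≤ X0 ∧ ∀ x : ℕ, X0 ≤ x → (gt S x : ℝ) ≤ 2 * x / Real.log x := by
  obtain ⟨x0, h1⟩ := eventually_atTop.1 (hS.eventually_lt_const (show (1 : ℝ) < 3 / 2 by norm_num))
  refine ⟨max x0 64, le_max_right _ _, fun x hx => ?_⟩
  have hx0 : x0 ≤ x + 1 := (le_max_left _ _).trans (hx.trans (by omega))
  have hx64 : 64 ≤ x := (le_max_right _ _).trans hx
  have hxr : (64 : ℝ) ≤ x := by exact_mod_cast hx64
  have h2 := h1 (x + 1) hx0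
  have hl : 0 < Real.log (x : ℝ) := Real.log_pos (by linarith)
  have hl2 : Real.log (x : ℝ) ≤ Real.log ((x + 1 : ℕ) : ℝ) := Real.log_le_log (by linarith) (by push_cast; linarith)
  have hx1 : (0 : ℝ) < ((x + 1 : ℕ) : ℝ) := by push_cast; linarith
  rw [div_lt_iff₀ hx1] at h2
  unfold gt
  rw [le_div_iff₀ hl]
  have h3 : (ct S (x + 1) : ℝ) * Real.log x ≤ ct S (x + 1) * Real.log ((x + 1 : ℕ) : ℝ) :=
    mul_le_mul_of_nonneg_left hl2 (Nat.cast_nonneg _)
  have h4 : ((x + 1 : ℕ) : ℝ) = x + 1 := by push_cast; ring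
  rw [h4] at h2 h3
  linarith

theorem log_two_lt_one : Real.log 2 < 1 := by
  have := Real.log_two_lt_d9
  linarith

/-- Extinction from a small power. -/
theorem extinct {S : Set ℕ} (hS : Law S) {δ : ℝ} (hδ : 0 < δ) : ∀ᶠ X : ℕ in atTop, ∀ h k : ℕ, (h : ℝ) ≤ (X : ℝ) ^ δ →
    8 * δ * Real.log X ≤ k * Real.log (Real.log X) → (gt S)^[k] h = 0 := by
  obtain ⟨X0, hX0, hg⟩ := gt_law hS
  have hsq : Tendsto (fun X : ℕ => √(Real.log X)) atTop atTop := Real.tendsto_sqrt_atTop.comp log_nat_top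
  have hlim : Tendsto (fun X : ℕ => Real.log (Real.log X) / √(Real.log X)) atTop (𝓝 0) := by
    have h1 : Tendsto (fun x : ℝ => Real.log x / x ^ (1 / 2 : ℝ)) atTop (𝓝 0) :=
      (isLittleO_log_rpow_atTop (by norm_num)).tendsto_div_nhds_zero
    refine (h1.comp log_nat_top).congr (fun X => ?_)
    simp only [Function.comp]
    rw [Real.sqrt_eq_rpow]
  filter_upwards [hsq.eventually_ge_atTop (X0 : ℝ), loglog_nat_top.eventually_ge_atTop 12, log_nat_top.eventually_ge_atTop 1,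
    hlim.eventually_lt_const (show (0 : ℝ) < δ by exact hδ), hsq.eventually_ge_atTop ((X0 + 4 : ℕ) : ℝ),
    eventually_gt_atTop 0] with X h1 h2 h3 h4 h5 hX h k hh hk
  obtain ⟨L, hL⟩ : ∃ L : ℝ, L = Real.log X := ⟨_, rfl⟩
  obtain ⟨r, hr⟩ : ∃ r : ℝ, r = √L := ⟨_, rfl⟩
  obtain ⟨l, hl⟩ : ∃ l : ℝ, l = Real.log L := ⟨_, rfl⟩
  have hXr : (0 : ℝ) < X := by exact_mod_cast hX
  rw [← hL] at h1 h2 h3 h4 h5 hk
  rw [← hr] at h1 h4 h5
  rw [← hl] at h2 h4 hk
  have hL0 : 0 < L := by linarith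
  have hX0r : (64 : ℝ) ≤ X0 := by exact_mod_cast hX0
  have hr0 : 64 ≤ r := by linarith
  have hrr : r * r = L := by rw [hr]; exact Real.mul_self_sqrt hL0.le
  have hlr : Real.log r = l / 2 := by
    rw [hl, ← hrr, Real.log_mul (by linarith) (by linarith)]
    ring
  have hl2 := log_two_lt_one
  have hl2' : 0.69 < Real.log 2 := by
    have := Real.log_two_gt_d9
    linarith
  have hlδ : l < δ * r := by
    rwa [div_lt_iff₀ (by linarith)] at h4
  -- first phase
  obtain ⟨k1, hk1⟩ : ∃ k1 : ℕ, k1 = ⌈3 * δ * L / l⌉₊ := ⟨_, rfl⟩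
  have hl0 : 0 < l := by linarith
  have hk1a : 3 * δ * L ≤ k1 * l := by
    have : 3 * δ * L / l ≤ k1 := by rw [hk1]; exact Nat.le_ceil _
    rwa [div_le_iff₀ hl0] at this
  have hk1b : (k1 : ℝ) * l < 3 * δ * L + l := by
    have h6 : (k1 : ℝ) < 3 * δ * L / l + 1 := by rw [hk1]; exact Nat.ceil_lt_add_one (by positivity)
    calc (k1 : ℝ) * l < (3 * δ * L / l + 1) * l := mul_lt_mul_of_pos_right h6 hl0
      _ = 3 * δ * L + l := by field_simp
  have hp1 : ∀ x : ℕ, Real.exp r < x → (gt S x : ℝ) ≤ x / (r / 2) := by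
    intro x hx
    have hxr : r < x := by
      have := Real.add_one_le_exp r
      linarith
    have h6 : X0 ≤ x := by
      have : (X0 : ℝ) ≤ x := by linarith
      exact_mod_cast this
    have h7 : r ≤ Real.log x := by
      rw [← Real.log_exp r]
      exact Real.log_le_log (Real.exp_pos _) hx.le
    refine (hg x h6).trans ?_
    have e1 : (x : ℝ) / (r / 2) = 2 * x / r := by field_simp
    rw [e1]
    exact div_le_div_of_nonneg_left (by positivity) (by linarith) h7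
  have hph1 : ((gt S)^[k1] h : ℝ) ≤ Real.exp r := by
    refine (shrink (by linarith) hp1 k1 h).trans (max_le le_rfl ?_)
    have e1 : (h : ℝ) ≤ Real.exp (δ * L) := by
      refine hh.trans (le_of_eq ?_)
      rw [Real.rpow_def_of_pos hXr, ← hL, mul_comm]
    have e2 : Real.exp (δ * L) ≤ (r / 2) ^ k1 := by
      rw [← Real.exp_log (show 0 < r / 2 by linarith), ← Real.exp_nat_mul, Real.log_div (by linarith) (by norm_num), hlr]
      refine Real.exp_le_exp.2 ?_
      have e3 : (k1 : ℝ) * (l / 3) ≤ k1 * (l / 2 - Real.log 2) := by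
        refine mul_le_mul_of_nonneg_left ?_ (Nat.cast_nonneg _)
        linarith
      linarith
    rw [div_le_iff₀ (by positivity)]
    have e4 : 1 ≤ Real.exp r := Real.one_le_exp (by linarith)
    have e5 : 0 < (r / 2) ^ k1 := by positivity
    nlinarith
  -- second phase
  obtain ⟨k2, hk2⟩ : ∃ k2 : ℕ, k2 = ⌈2 * r⌉₊ := ⟨_, rfl⟩
  have hk2a : 2 * r ≤ k2 := by rw [hk2]; exact Nat.le_ceil _
  have hk2b : (k2 : ℝ) < 2 * r + 1 := by rw [hk2]; exact Nat.ceil_lt_add_one (by linarith)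
  have hp2 : ∀ x : ℕ, (X0 : ℝ) < x → (gt S x : ℝ) ≤ x / 2 := by
    intro x hx
    have h6 : X0 ≤ x := by exact_mod_cast hx.le
    refine (hg x h6).trans ?_
    have h7 : 4 ≤ Real.log (x : ℝ) := by
      have e1 : Real.exp 4 ≤ (x : ℝ) := by
        have e2 : Real.exp 4 = Real.exp 1 ^ 4 := by
          rw [← Real.exp_nat_mul]
          norm_num
        have e3 := Real.exp_one_lt_d9
        have e4 : Real.exp 1 ^ 4 ≤ 2.7182818286 ^ 4 := pow_le_pow_left₀ (Real.exp_pos 1).le e3.le 4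
        rw [e2]
        have e5 : (2.7182818286 : ℝ) ^ 4 ≤ 64 := by norm_num
        linarith
      have := Real.log_le_log (Real.exp_pos 4) e1
      rwa [Real.log_exp] at this
    have hx0 : (0 : ℝ) < x := by linarith
    rw [div_le_div_iff₀ (by linarith) (by norm_num)]
    nlinarith
  have hph2 : ((gt S)^[k2] ((gt S)^[k1] h) : ℝ) ≤ X0 := by
    refine (shrink (by norm_num) hp2 k2 _).trans (max_le le_rfl ?_)
    have e1 : Real.exp r ≤ 2 ^ k2 := by
      rw [← Real.exp_log (show (0 : ℝ) < 2 by norm_num), ← Real.exp_nat_mul]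
      refine Real.exp_le_exp.2 ?_
      nlinarith
    rw [div_le_iff₀ (by positivity)]
    have e2 : (0 : ℝ) < 2 ^ k2 := by positivity
    nlinarith
  -- third phase
  have hph3 : (gt S)^[X0] ((gt S)^[k2] ((gt S)^[k1] h)) = 0 := by
    have e1 : (gt S)^[k2] ((gt S)^[k1] h) ≤ X0 := by exact_mod_cast hph2
    have := gt_it_le S X0 ((gt S)^[k2] ((gt S)^[k1] h))
    omega
  rw [← Function.iterate_add_apply, ← Function.iterate_add_apply] at hph3
  refine gt_it_of_zero ?_ hph3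
  -- the number of the steps
  have h6 : (((X0 + (k2 + k1) : ℕ) : ℝ)) * l ≤ k * l := by
    refine le_trans ?_ hk
    push_cast
    have e1 : (X0 : ℝ) + k2 ≤ 4 * r := by
      have : ((X0 + 4 : ℕ) : ℝ) = X0 + 4 := by push_cast; ring
      rw [this] at h5
      linarith
    have e2 : ((X0 : ℝ) + k2) * l ≤ 4 * r * l := mul_le_mul_of_nonneg_right e1 hl0.le
    have e3 : 4 * r * l + l ≤ 5 * r * l := by nlinarith
    have e4 : 5 * r * l ≤ 5 * δ * L := by
      rw [← hrr]
      nlinarith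
    nlinarith
  have h7 : ((X0 + (k2 + k1) : ℕ) : ℝ) ≤ k := le_of_mul_le_mul_right h6 hl0
  have h8 : X0 + (k2 + k1) ≤ k := by exact_mod_cast h7
  omega

/-- The general bound. -/
theorem small_or {S : Set ℕ} (hS : Law S) {δ : ℝ} (hδ : 0 < δ) : ∀ᶠ X : ℕ in atTop, ∀ k : ℕ,
    ((gt S)^[k] X : ℝ) ≤ (X : ℝ) ^ δ ∨
      ((gt S)^[k] X : ℝ) ≤ Real.exp (Real.log X - (1 - δ) * (k * Real.log (Real.log X))) := by
  obtain ⟨X0, hX0, hg⟩ := gt_law hS
  have hbig : Tendsto (fun n : ℕ => (n : ℝ) ^ δ) atTop atTop :=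
    (tendsto_rpow_atTop hδ).comp tendsto_natCast_atTop_atTop
  filter_upwards [hbig.eventually_ge_atTop (X0 : ℝ), loglog_nat_top.eventually_ge_atTop ((Real.log (2 / δ)) / δ),
    log_nat_top.eventually_ge_atTop (2 / δ), eventually_gt_atTop 0] with X h1 h2 h3 hX k
  obtain ⟨L, hL⟩ : ∃ L : ℝ, L = Real.log X := ⟨_, rfl⟩
  have hXr : (0 : ℝ) < X := by exact_mod_cast hX
  rw [← hL] at h2 h3 ⊢
  have h2d : 2 / δ > 0 := by positivity
  have hL0 : 0 < L := by linarith
  have hq : 1 ≤ δ * L / 2 := by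
    rw [le_div_iff₀ (by norm_num)]
    rw [div_le_iff₀ hδ] at h3
    linarith
  have hp : ∀ x : ℕ, (X : ℝ) ^ δ < x → (gt S x : ℝ) ≤ x / (δ * L / 2) := by
    intro x hx
    have h6 : X0 ≤ x := by
      have : (X0 : ℝ) ≤ x := by linarith
      exact_mod_cast this
    have h7 : δ * L ≤ Real.log x := by
      rw [hL, ← Real.log_rpow hXr]
      exact Real.log_le_log (by positivity) hx.le
    refine (hg x h6).trans ?_
    have e1 : (x : ℝ) / (δ * L / 2) = 2 * x / (δ * L) := by field_simp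
    rw [e1]
    exact div_le_div_of_nonneg_left (by positivity) (by positivity) h7
  have h4 := shrink hq hp k X
  rcases le_max_iff.1 h4 with h5 | h5
  · exact Or.inl h5
  · refine Or.inr (h5.trans ?_)
    rw [Real.exp_sub, hL, Real.exp_log hXr, ← hL]
    refine div_le_div_of_nonneg_left hXr.le (Real.exp_pos _) ?_
    rw [← Real.exp_log (show 0 < δ * L / 2 by linarith), ← Real.exp_nat_mul]
    refine Real.exp_le_exp.2 ?_
    have e1 : (1 - δ) * Real.log L ≤ Real.log (δ * L / 2) := by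
      have e2 : δ * L / 2 = L / (2 / δ) := by field_simp
      rw [e2, Real.log_div (by linarith) (by positivity)]
      rw [div_le_iff₀ hδ] at h2
      linarith
    have e3 : (k : ℝ) * ((1 - δ) * Real.log L) ≤ k * Real.log (δ * L / 2) := mul_le_mul_of_nonneg_left e1 (Nat.cast_nonneg _)
    linarith

/-- Extinction. -/
theorem extinct_all {S : Set ℕ} (hS : Law S) {δ : ℝ} (hδ : 0 < δ) (hδ1 : δ ≤ 1) : ∀ᶠ X : ℕ in atTop, ∀ k : ℕ,
    (1 + 9 * δ) * Real.log X ≤ k * Real.log (Real.log X) → (gt S)^[k] X = 0 := by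
  have hlim : Tendsto (fun X : ℕ => Real.log (Real.log X) / Real.log X) atTop (𝓝 0) := by
    have h1 : Tendsto (fun x : ℝ => Real.log x / x ^ (1 : ℝ)) atTop (𝓝 0) :=
      (isLittleO_log_rpow_atTop (by norm_num)).tendsto_div_nhds_zero
    refine (h1.comp log_nat_top).congr (fun X => ?_)
    simp only [Function.comp]
    rw [Real.rpow_one]
  filter_upwards [extinct hS hδ, small_or hS hδ, loglog_nat_top.eventually_ge_atTop 1, log_nat_top.eventually_ge_atTop 1,
    hlim.eventually_lt_const hδ, eventually_gt_atTop 0] with X h1 h2 h3 h4 h5 hX k hk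
  obtain ⟨L, hL⟩ : ∃ L : ℝ, L = Real.log X := ⟨_, rfl⟩
  obtain ⟨l, hl⟩ : ∃ l : ℝ, l = Real.log L := ⟨_, rfl⟩
  have hXr : (0 : ℝ) < X := by exact_mod_cast hX
  rw [← hL] at h1 h2 h3 h4 h5 hk
  rw [← hl] at h1 h2 h3 h5 hk
  have hl0 : 0 < l := by linarith
  have hL0 : 0 < L := by linarith
  rw [div_lt_iff₀ hL0] at h5
  obtain ⟨k0, hk0⟩ : ∃ k0 : ℕ, k0 = ⌈L / l⌉₊ := ⟨_, rfl⟩
  have hk0a : L ≤ k0 * l := by
    have : L / l ≤ k0 := by rw [hk0]; exact Nat.le_ceil _
    rwa [div_le_iff₀ hl0] at this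
  have hk0b : (k0 : ℝ) * l < L + l := by
    have h6 : (k0 : ℝ) < L / l + 1 := by rw [hk0]; exact Nat.ceil_lt_add_one (by positivity)
    calc (k0 : ℝ) * l < (L / l + 1) * l := mul_lt_mul_of_pos_right h6 hl0
      _ = L + l := by field_simp
  have hsm : ((gt S)^[k0] X : ℝ) ≤ (X : ℝ) ^ δ := by
    rcases h2 k0 with h6 | h6
    · exact h6
    · refine h6.trans ?_
      rw [Real.rpow_def_of_pos hXr, ← hL]
      refine Real.exp_le_exp.2 ?_
      nlinarith
  have hkk : k0 ≤ k := by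
    have h6 : (k0 : ℝ) * l ≤ k * l := by nlinarith
    exact_mod_cast le_of_mul_le_mul_right h6 hl0
  obtain ⟨i, rfl⟩ := Nat.exists_eq_add_of_le' hkk
  rw [Function.iterate_add_apply]
  refine h1 _ i hsm ?_
  push_cast at hk
  nlinarith

/-- The product of the two counts. -/
theorem prod_small {S : Set ℕ} (hS : Law S) {δ : ℝ} (hδ : 0 < δ) (hδ1 : δ ≤ 1 / 16) : ∀ᶠ X : ℕ in atTop, ∀ k l : ℕ,
    (1 + 16 * δ) * Real.log X ≤ ((k + l : ℕ) : ℝ) * Real.log (Real.log X) →
      ((gt S)^[k] X : ℝ) * ((gt S)^[l] X : ℝ) ≤ (X : ℝ) ^ (1 - δ) := by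
  filter_upwards [extinct_all hS hδ (by linarith), small_or hS hδ, log_nat_top.eventually_ge_atTop 1,
    eventually_gt_atTop 0] with X h1 h2 h4 hX
  have hXr : (0 : ℝ) < X := by exact_mod_cast hX
  obtain ⟨L, hL⟩ : ∃ L : ℝ, L = Real.log X := ⟨_, rfl⟩
  obtain ⟨ll, hl⟩ : ∃ ll : ℝ, ll = Real.log L := ⟨_, rfl⟩
  rw [← hL] at h1 h2 h4 ⊢
  rw [← hl] at h1 h2 ⊢
  have hpow : ∀ s : ℝ, (X : ℝ) ^ s = Real.exp (s * L) := by
    intro s
    rw [Real.rpow_def_of_pos hXr, ← hL, mul_comm]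
  simp only [hpow] at h2 ⊢
  -- one of the two is small
  have hone : ∀ k l : ℕ, (1 + 16 * δ) * L ≤ ((k + l : ℕ) : ℝ) * ll → ((gt S)^[k] X : ℝ) ≤ Real.exp (δ * L) →
      ((gt S)^[k] X : ℝ) * ((gt S)^[l] X : ℝ) ≤ Real.exp ((1 - δ) * L) := by
    intro k l hkl hk
    push_cast at hkl
    rcases le_or_gt (3 * δ * L) (l * ll) with h5 | h5
    · rcases h2 l with h6 | h6
      · calc ((gt S)^[k] X : ℝ) * ((gt S)^[l] X : ℝ) ≤ Real.exp (δ * L) * Real.exp (δ * L) :=
              mul_le_mul hk h6 (Nat.cast_nonneg _) (Real.exp_pos _).le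
          _ ≤ Real.exp ((1 - δ) * L) := by
              rw [← Real.exp_add]
              refine Real.exp_le_exp.2 ?_
              nlinarith
      · calc ((gt S)^[k] X : ℝ) * ((gt S)^[l] X : ℝ) ≤ Real.exp (δ * L) * Real.exp (L - (1 - δ) * (l * ll)) :=
              mul_le_mul hk h6 (Nat.cast_nonneg _) (Real.exp_pos _).le
          _ ≤ Real.exp ((1 - δ) * L) := by
              rw [← Real.exp_add]
              refine Real.exp_le_exp.2 ?_
              have e1 : (1 - δ) * (3 * δ * L) ≤ (1 - δ) * (l * ll) := mul_le_mul_of_nonneg_left h5 (by linarith)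
              have e2 : 0 < δ * L := by positivity
              nlinarith
    · have e0 : 0 < δ * L := by positivity
      have h6 := h1 k (by nlinarith)
      rw [h6, Nat.cast_zero, zero_mul]
      exact (Real.exp_pos _).le
  intro k l hkl
  rcases h2 k with h5 | h5
  · exact hone k l hkl h5
  · rcases h2 l with h6 | h6
    · rw [mul_comm]
      exact hone l k (by rw [add_comm l k]; exact hkl) h6
    · refine (mul_le_mul h5 h6 (Nat.cast_nonneg _) (Real.exp_pos _).le).trans ?_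
      rw [← Real.exp_add]
      refine Real.exp_le_exp.2 ?_
      push_cast at hkl
      have e1 : (1 - δ) * ((1 + 16 * δ) * L) ≤ (1 - δ) * ((k + l) * ll) := mul_le_mul_of_nonneg_left hkl (by linarith)
      have e2 : 0 < δ * L := by positivity
      nlinarith

theorem cD_gt (S : Set ℕ) (a : ℕ) : ∀ h : ℕ, cD (IsPr a S) h = ((gt S)^[a + 1] h : ℝ) := by
  classical
  induction a with
  | zero =>
    intro h
    unfold cD
    simp only [zero_add, Function.iterate_one]
    unfold gt ct IsPr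
    congr 2
    ext x
    simp only [mem_filter, mem_Icc, mem_Ico]
    constructor
    · rintro ⟨⟨h1, h2⟩, h3, h4⟩
      exact ⟨⟨h3, by omega⟩, h4⟩
    · rintro ⟨⟨h1, h2⟩, h3⟩
      exact ⟨⟨by omega, by omega⟩, h1, h3⟩
  | succ a ih =>
    intro h
    rw [cD_succ, ih, Function.iterate_succ_apply (gt S) (a + 1)]
    rfl

theorem card_rep {S : Set ℕ} {a b X : ℕ} (M : Finset ℕ) (hM : ∀ m ∈ M, m ≤ X ∧ IsRep S a b m) :
    (M.card : ℝ) ≤ ((gt S)^[a + 1] X : ℝ) * ((gt S)^[b + 1] X : ℝ) := by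
  classical
  rw [← cD_gt, ← cD_gt]
  unfold cD
  rw [← Nat.cast_mul, ← card_product]
  have h1 : M ⊆ ((Icc 1 X).filter (IsPr a S) ×ˢ (Icc 1 X).filter (IsPr b S)).image (fun v => v.1 + v.2) := by
    intro m hm
    obtain ⟨h2, x, y, hx, hy, hxy, _⟩ := hM m hm
    rw [mem_image]
    refine ⟨(x, y), ?_, hxy⟩
    have h3 := (isPr_mem hx).1
    have h4 := (isPr_mem hy).1
    rw [mem_product, mem_filter, mem_filter, mem_Icc, mem_Icc]
    exact ⟨⟨⟨by simp only; omega, by simp only; omega⟩, hx⟩, ⟨⟨by simp only; omega, by simp only; omega⟩, hy⟩⟩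
  exact_mod_cast (card_le_card h1).trans card_image_le

/-- **The other side.** -/
theorem lower {S : Set ℕ} (hS : Law S) {ε : ℝ} (hε : 0 < ε) (hε1 : ε ≤ 1) : ∀ᶠ n : ℕ in atTop, ∀ a b : ℕ,
    (1 + ε) * Real.log ((2 * n : ℕ) : ℝ) ≤ ((a + b + 2 : ℕ) : ℝ) * Real.log (Real.log ((2 * n : ℕ) : ℝ)) →
      ∃ k : ℕ, n < 2 * k ∧ k ≤ n ∧ ¬ IsRep S a b (2 * k) := by
  classical
  obtain ⟨δ, hδ⟩ : ∃ δ : ℝ, δ = ε / 16 := ⟨_, rfl⟩
  have hδ0 : 0 < δ := by rw [hδ]; positivity
  have htop : Tendsto (fun n : ℕ => 2 * n) atTop atTop := tendsto_id.const_mul_atTop' (by norm_num)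
  have hbig : Tendsto (fun n : ℕ => ((2 * n : ℕ) : ℝ) ^ δ) atTop atTop :=
    ((tendsto_rpow_atTop hδ0).comp tendsto_natCast_atTop_atTop).comp htop
  filter_upwards [htop.eventually (prod_small hS hδ0 (by linarith)), hbig.eventually_ge_atTop 16, eventually_ge_atTop 4]
    with n h1 h2 h3 a b hab
  by_contra hcon
  push Not at hcon
  obtain ⟨X, hX⟩ : ∃ X : ℕ, X = 2 * n := ⟨_, rfl⟩
  rw [← hX] at h1 h2 hab
  have hXr : (0 : ℝ) < X := by exact_mod_cast (by omega : 0 < X)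
  have h4 := h1 (a + 1) (b + 1) (by
    have e1 : 1 + 16 * δ = 1 + ε := by rw [hδ]; ring
    have e2 : a + 1 + (b + 1) = a + b + 2 := by ring
    rw [e1, e2]
    exact hab)
  have h5 := card_rep (S := S) (a := a) (b := b) (X := X) ((Ioc (n / 2) n).image (fun k => 2 * k)) (fun m hm => by
    rw [mem_image] at hm
    obtain ⟨k, hk, rfl⟩ := hm
    rw [mem_Ioc] at hk
    exact ⟨by omega, hcon k (by omega) hk.2⟩)
  rw [card_image_of_injective _ (fun x y h => by
    have h' : 2 * x = 2 * y := h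
    omega), Nat.card_Ioc] at h5
  have h6 : (n : ℝ) ≤ 2 * ((n - n / 2 : ℕ) : ℝ) := by
    have : n ≤ 2 * (n - n / 2) := by omega
    exact_mod_cast this
  have h7 : (X : ℝ) = 2 * n := by rw [hX]; push_cast; ring
  have h8 : (X : ℝ) ^ (1 - δ) * (X : ℝ) ^ δ = X := by
    rw [← Real.rpow_add hXr]
    have : 1 - δ + δ = 1 := by ring
    rw [this, Real.rpow_one]
  have h9 : 0 < (X : ℝ) ^ (1 - δ) := by positivity
  nlinarith

end Pool.Agent.Q197.IT
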