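import Pool.Agent.Q197.IT.Det

/-!
# All types of bounded complexity
-/

set_option autoImplicit false
set_option linter.unusedSectionVars false

namespace Pool.Agent.Q197.IT

open Finset Filter MeasureTheory ProbabilityTheory Pool.Agent.Q197.FM Pool.Agent.Q197.CI Pool.Agent.Q197.BH
  Pool.Agent.Q120.ET Pool.Agent.Q120.MF
open scoped Topology

theorem log_nat_top : Tendsto (fun n : ℕ => Real.log (n : ℝ)) atTop atTop :=
  Real.tendsto_log_atTop.comp tendsto_natCast_atTop_atTop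

theorem loglog_nat_top : Tendsto (fun n : ℕ => Real.log (Real.log (n : ℝ))) atTop atTop :=
  Real.tendsto_log_atTop.comp log_nat_top

/-- Powers of the logarithm. -/
theorem growth {C ε : ℝ} (hC : 1 ≤ C) (hε : 0 < ε) : ∀ᶠ n : ℕ in atTop, ∀ k : ℕ,
    (k : ℝ) * Real.log (Real.log n) ≤ (1 - ε) * Real.log n → (C * Real.log n) ^ k ≤ (n : ℝ) ^ (1 - ε / 2) := by
  filter_upwards [loglog_nat_top.eventually_ge_atTop (2 * Real.log C / ε + 1), log_nat_top.eventually_ge_atTop 1,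
    eventually_gt_atTop 0] with n h1 h2 h3 k hk
  have hn0 : (0 : ℝ) < n := by exact_mod_cast h3
  have hlC : 0 ≤ Real.log C := Real.log_nonneg hC
  have hll : 0 < Real.log (Real.log n) := by
    have : 0 ≤ 2 * Real.log C / ε := by positivity
    linarith
  have hCl : 0 < C * Real.log n := by positivity
  rw [← Real.exp_log hCl, ← Real.exp_nat_mul, Real.rpow_def_of_pos hn0, Real.log_mul (by positivity) (by positivity)]
  refine Real.exp_le_exp.2 ?_
  have h4 : (k : ℝ) * Real.log C ≤ ε / 2 * Real.log n := by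
    have h5 : (k : ℝ) * (2 * Real.log C / ε) ≤ (1 - ε) * Real.log n := by
      refine le_trans ?_ hk
      exact mul_le_mul_of_nonneg_left (by linarith) (Nat.cast_nonneg _)
    have h6 : (k : ℝ) * (2 * Real.log C / ε) = 2 / ε * (k * Real.log C) := by ring
    rw [h6] at h5
    have h7 : (k : ℝ) * Real.log C = ε / 2 * (2 / ε * (k * Real.log C)) := by
      field_simp
    rw [h7]
    refine (mul_le_mul_of_nonneg_left h5 (by positivity)).trans ?_
    have : 0 < Real.log (n : ℝ) := by linarith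
    refine mul_le_mul_of_nonneg_left ?_ (by positivity)
    nlinarith
  nlinarith

variable {Ω : Type*} [MeasurableSpace Ω] {μ : Measure Ω} [IsProbabilityMeasure μ] {A : Ω → Set ℕ}

/-- The probability of the failure. -/
theorem two_chains (hA : IndepElems μ A) {N : ℕ} {τ : ℝ} (hτ : 0 < τ) (hτ1 : τ ≤ 1)
    (hτN : ∀ a : ℕ, 3 ≤ a → a < N → τ ≤ μ.real {ω | a ∈ A ω}) (a b c e H : ℕ) (hH : 1 ≤ H) :
    μ.real {ω | BC N (K1 N b e H) (a + 1) ∅ c (c + H) (range H) id (A ω)} ≤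
      ((N : ℝ) + 1) ^ (2 * (a + b + 2)) * ((a + b + 2 : ℕ) * Real.exp (-(H * (τ / 2) ^ (a + b + 2) / 16))) := by
  obtain ⟨m, hm⟩ : ∃ m : ℝ, m = H * (τ / 2) ^ (a + b + 2) := ⟨_, rfl⟩
  have hH0 : (0 : ℝ) < H := by exact_mod_cast hH
  have hm0 : 0 < m := by rw [hm]; positivity
  have hN0 : (0 : ℝ) ≤ N := Nat.cast_nonneg N
  obtain ⟨E, hE⟩ : ∃ E : ℝ, E = Real.exp (-(m / 16)) := ⟨_, rfl⟩
  have hE0 : 0 < E := by rw [hE]; exact Real.exp_pos _
  have hK0l : ∀ Used T, Loc (Ico 3 N \ Used) (K0 Used T) := fun Used T S S' _ => rfl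
  have hK1l : ∀ Used T, Loc (Ico 3 N \ Used) (K1 N b e H Used T) := fun Used T => bc_loc hK0l (b + 1) Used e (e + H) T _
  obtain ⟨κ, hκ⟩ : ∃ κ : ℝ, κ = ((N : ℝ) + 1) ^ (2 * (b + 1)) * (0 + ((b + 1 : ℕ) : ℝ) * E) := ⟨_, rfl⟩
  have hκ0 : 0 ≤ κ := by rw [hκ]; positivity
  obtain ⟨m1, hm1⟩ : ∃ m1 : ℝ, m1 = H * (τ / 2) ^ (a + 1) := ⟨_, rfl⟩
  have hm10 : 0 < m1 := by rw [hm1]; positivity
  have hmm : m = m1 * (τ / 2) ^ (b + 1) := by
    rw [hm, hm1, mul_assoc, ← pow_add]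
    congr 2
    omega
  have hle1 : (τ / 2) ^ (b + 1) ≤ 1 := pow_le_one₀ (by linarith) (by linarith)
  have hmle : m ≤ m1 := by
    rw [hmm]
    nlinarith
  have hK1 : ∀ Used T : Finset ℕ, T ⊆ range H → m1 ≤ T.card → μ.real {ω | K1 N b e H Used T (A ω)} ≤ κ := by
    intro Used T hTH hT
    rw [hκ, hE]
    refine bc_prob hA hτ hτ1 hτN hK0l hm0 le_rfl (fun U T' hT' => ?_) (b + 1) Used e (e + H) T _ ?_ ?_
    · have : {ω | K0 U T' (A ω)} = ∅ := by
        ext ω
        simp only [Set.mem_ofPred_eq, Set.mem_empty_iff_false, iff_false]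
        unfold K0
        rintro rfl
        rw [card_empty, Nat.cast_zero] at hT'
        linarith
      rw [this, measureReal_empty]
    · intro t ht t' ht' he
      have h1 := mem_range.1 (hTH ht)
      have h2 := mem_range.1 (hTH ht')
      simp only at he
      omega
    · rw [hmm]
      exact mul_le_mul_of_nonneg_right hT (by positivity)
  -- the first chain, for subsets of `range H`
  obtain ⟨K', hK'⟩ : ∃ K' : Finset ℕ → Finset ℕ → Set ℕ → Prop, K' = fun Used T S => T ⊆ range H ∧ K1 N b e H Used T S := ⟨_, rfl⟩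
  have hK'l : ∀ Used T, Loc (Ico 3 N \ Used) (K' Used T) := by
    intro Used T S S' hS
    rw [hK']
    show (T ⊆ range H ∧ K1 N b e H Used T S) = (T ⊆ range H ∧ K1 N b e H Used T S')
    rw [hK1l Used T S S' hS]
  have hK'1 : ∀ Used T : Finset ℕ, m1 ≤ T.card → μ.real {ω | K' Used T (A ω)} ≤ κ := by
    intro Used T hT
    rw [hK']
    by_cases h : T ⊆ range H
    · simp only [h, true_and]
      exact hK1 Used T h hT
    · simp only [h, false_and]
      simpa using hκ0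
  have h1 := bc_prob hA hτ hτ1 hτN hK'l hm10 hκ0 hK'1 (a + 1) ∅ c (c + H) (range H) id (Set.injOn_id _)
    (by rw [card_range, hm1])
  have hsub : ∀ k : ℕ, ∀ (Used : Finset ℕ) (lo hi : ℕ) (T : Finset ℕ) (ρ : ℕ → ℕ) (S : Set ℕ), T ⊆ range H →
      BC N (K1 N b e H) k Used lo hi T ρ S → BC N K' k Used lo hi T ρ S := by
    intro k
    induction k with
    | zero =>
      intro Used lo hi T ρ S hT h
      unfold BC at h ⊢
      rw [hK']
      exact ⟨hT, h⟩
    | succ k ih =>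
      intro Used lo hi T ρ S hT h
      unfold BC at h ⊢
      obtain ⟨h2, v, hv, h3⟩ := h
      refine ⟨h2, v, hv, ih _ _ _ _ _ _ (fun t ht => ?_) h3⟩
      rw [mem_hit] at ht
      exact hT ht.1
  refine (measureReal_mono (fun ω hω => hsub (a + 1) ∅ c (c + H) (range H) id (A ω) (Subset.refl _) hω)
    (measure_ne_top _ _)).trans (h1.trans ?_)
  rw [← hm, ← hE, hκ, zero_add]
  have h2 : Real.exp (-(m1 / 16)) ≤ E := by
    rw [hE]
    refine Real.exp_le_exp.2 ?_
    linarith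
  have h3 : ((N : ℝ) + 1) ^ (2 * (a + b + 2)) = ((N : ℝ) + 1) ^ (2 * (a + 1)) * ((N : ℝ) + 1) ^ (2 * (b + 1)) := by
    rw [← pow_add]
    congr 1
    ring
  rw [h3]
  have h4 : (1 : ℝ) ≤ ((N : ℝ) + 1) ^ (2 * (b + 1)) := one_le_pow₀ (by linarith)
  have h5 : ((a + b + 2 : ℕ) : ℝ) = ((b + 1 : ℕ) : ℝ) + ((a + 1 : ℕ) : ℝ) := by
    push_cast
    ring
  rw [h5, mul_assoc]
  refine mul_le_mul_of_nonneg_left ?_ (by positivity)
  have h6 : ((a + 1 : ℕ) : ℝ) * Real.exp (-(m1 / 16)) ≤ ((a + 1 : ℕ) : ℝ) * E :=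
    mul_le_mul_of_nonneg_left h2 (Nat.cast_nonneg _)
  have h7 : 0 ≤ ((a + 1 : ℕ) : ℝ) * E := by positivity
  have h8 : ((a + 1 : ℕ) : ℝ) * E ≤ ((N : ℝ) + 1) ^ (2 * (b + 1)) * (((a + 1 : ℕ) : ℝ) * E) := by nlinarith
  have h9 : ((N : ℝ) + 1) ^ (2 * (b + 1)) * ((((b + 1 : ℕ) : ℝ) + ((a + 1 : ℕ) : ℝ)) * E) =
      ((N : ℝ) + 1) ^ (2 * (b + 1)) * (((b + 1 : ℕ) : ℝ) * E) + ((N : ℝ) + 1) ^ (2 * (b + 1)) * (((a + 1 : ℕ) : ℝ) * E) := by
    ring
  rw [h9]
  linarith

/-- The sum over all types. -/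
theorem numeric {δ : ℝ} (hδ : 0 < δ) : ∀ᶠ n : ℕ in atTop, ∀ k : ℕ, (k : ℝ) ≤ Real.log n →
    (n : ℝ) ^ 2 * (((n : ℝ) + 3) ^ (2 * k) * (k * Real.exp (-((n : ℝ) ^ δ / 256)))) ≤ (n : ℝ) ^ (-2 : ℝ) := by
  have h1 : Tendsto (fun n : ℕ => Real.log (n : ℝ) ^ (2 : ℝ) / (n : ℝ) ^ δ) atTop (𝓝 0) :=
    ((isLittleO_log_rpow_rpow_atTop 2 hδ).tendsto_div_nhds_zero).comp tendsto_natCast_atTop_atTop
  filter_upwards [h1.eventually_lt_const (show (0 : ℝ) < 1 / 2560 by norm_num), eventually_ge_atTop 3,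
    log_nat_top.eventually_ge_atTop 1] with n h2 h3 h4 k hk
  have hn0 : (0 : ℝ) < n := by exact_mod_cast (by omega : 0 < n)
  have hn3 : (3 : ℝ) ≤ n := by exact_mod_cast h3
  have hp : 0 < (n : ℝ) ^ δ := Real.rpow_pos_of_pos hn0 _
  rw [div_lt_iff₀ hp, Real.rpow_two] at h2
  obtain ⟨L, hL⟩ : ∃ L : ℝ, L = Real.log n := ⟨_, rfl⟩
  rw [← hL] at h2 h4 hk
  have hexpL : Real.exp L = n := by rw [hL]; exact Real.exp_log hn0
  have e1 : ((n : ℝ) + 3) ^ (2 * k) ≤ Real.exp (4 * L ^ 2) := by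
    have h5 : (n : ℝ) + 3 ≤ (n : ℝ) ^ 2 := by nlinarith
    calc ((n : ℝ) + 3) ^ (2 * k) ≤ ((n : ℝ) ^ 2) ^ (2 * k) := pow_le_pow_left₀ (by positivity) h5 _
      _ = Real.exp ((4 * k : ℕ) * L) := by
          rw [← pow_mul, ← hexpL, ← Real.exp_nat_mul]
          congr 2
          push_cast
          ring
      _ ≤ Real.exp (4 * L ^ 2) := by
          refine Real.exp_le_exp.2 ?_
          push_cast
          nlinarith
  have e2 : (k : ℝ) ≤ Real.exp L := by
    have := Real.add_one_le_exp L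
    linarith
  have e3 : (n : ℝ) ^ 2 = Real.exp (2 * L) := by
    rw [← hexpL, ← Real.exp_nat_mul]
    push_cast
    ring_nf
  have e4 : (n : ℝ) ^ (-2 : ℝ) = Real.exp (-2 * L) := by
    rw [Real.rpow_def_of_pos hn0, ← hL]
    ring_nf
  rw [e3, e4]
  calc Real.exp (2 * L) * (((n : ℝ) + 3) ^ (2 * k) * (k * Real.exp (-((n : ℝ) ^ δ / 256))))
      ≤ Real.exp (2 * L) * (Real.exp (4 * L ^ 2) * (Real.exp L * Real.exp (-((n : ℝ) ^ δ / 256)))) := by
        refine mul_le_mul_of_nonneg_left ?_ (Real.exp_pos _).le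
        refine mul_le_mul e1 ?_ (by positivity) (Real.exp_pos _).le
        exact mul_le_mul_of_nonneg_right e2 (Real.exp_pos _).le
    _ = Real.exp (2 * L + (4 * L ^ 2 + (L + -((n : ℝ) ^ δ / 256)))) := by
        rw [← Real.exp_add, ← Real.exp_add, ← Real.exp_add]
    _ ≤ Real.exp (-2 * L) := by
        refine Real.exp_le_exp.2 ?_
        nlinarith

/-- Iterates from below. -/
theorem it_lower {S : Set ℕ} {x0 : ℝ} (hx0 : 3 ≤ x0) (h : ∀ x : ℕ, x0 ≤ x → (x : ℝ) / (2 * Real.log x) ≤ ct S x) {c : ℕ}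
    {L : ℝ} (hL : 1 ≤ L) (hc : Real.log c ≤ L) : ∀ j : ℕ, x0 ≤ c / (2 * L) ^ j → (c : ℝ) / (2 * L) ^ j ≤ (fs S)^[j] c := by
  intro j
  induction j with
  | zero => intro _; simp
  | succ j ih =>
    intro hj
    have hc0 : (0 : ℝ) ≤ c := Nat.cast_nonneg c
    have h1 : (c : ℝ) / (2 * L) ^ (j + 1) ≤ c / (2 * L) ^ j := by
      refine div_le_div_of_nonneg_left hc0 (by positivity) ?_
      exact pow_le_pow_right₀ (by linarith) (by omega)
    have h2 := ih (hj.trans h1)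
    rw [Function.iterate_succ_apply']
    obtain ⟨y, hy⟩ : ∃ y : ℕ, y = (fs S)^[j] c := ⟨_, rfl⟩
    rw [← hy] at h2 ⊢
    have hy0 : x0 ≤ y := (hj.trans h1).trans h2
    have h3 := h y hy0
    have hypos : (0 : ℝ) < y := by linarith
    have hc1 : 1 ≤ c := by
      by_contra hcon
      have : c = 0 := by omega
      rw [this, Nat.cast_zero, zero_div] at hj
      linarith
    have hyc : y ≤ c := by
      rw [hy]
      exact it_anti (S := S) hc1 (Nat.zero_le j)
    have h4 : Real.log y ≤ L := (Real.log_le_log hypos (by exact_mod_cast hyc)).trans hc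
    have h5 : 0 < Real.log (y : ℝ) := Real.log_pos (by linarith)
    have h6 : (y : ℝ) / (2 * L) ≤ y / (2 * Real.log y) := div_le_div_of_nonneg_left hypos.le (by positivity) (by linarith)
    have h7 : (c : ℝ) / (2 * L) ^ (j + 1) ≤ y / (2 * L) := by
      rw [pow_succ, ← div_div]
      exact div_le_div_of_nonneg_right h2 (by positivity)
    have h8 : ((fs S y : ℕ) : ℝ) = ct S y + 1 := by unfold fs; push_cast; ring
    rw [h8]
    linarith

theorem ct_r3 (A : Ω → Set ℕ) (ω : Ω) (x : ℕ) : ct (r3 A ω) x = ct (A ω) x := by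
  classical
  unfold ct
  congr 1
  refine filter_congr (fun j hj => ?_)
  rw [mem_Ico] at hj
  simp [r3, hj.1]

theorem isPr_r3 (A : Ω → Set ℕ) (ω : Ω) (a x : ℕ) : IsPr a (r3 A ω) x ↔ IsPr a (A ω) x :=
  isPr_congr a x _ _ (fun j h3 _ => by simp [r3, h3])

theorem isRep_r3 (A : Ω → Set ℕ) (ω : Ω) (a b n : ℕ) : IsRep (r3 A ω) a b n ↔ IsRep (A ω) a b n := by
  unfold IsRep
  simp only [isPr_r3]

/-- **All types of small complexity.** -/
theorem upper (hA : IsCramer μ A) : ∀ᵐ ω ∂μ, ∀ ε : ℝ, 0 < ε → ∀ᶠ n : ℕ in atTop, ∀ a b : ℕ,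
    ((a + b + 2 : ℕ) : ℝ) * Real.log (Real.log n) ≤ (1 - ε) * Real.log n → IsRep (A ω) a b n := by
  classical
  have key : ∀ ε : ℝ, 0 < ε → ε ≤ 1 → ∀ᵐ ω ∂μ, ∀ᶠ n : ℕ in atTop, ∀ a b : ℕ,
      ((a + b + 2 : ℕ) : ℝ) * Real.log (Real.log n) ≤ (1 - ε) * Real.log n → IsRep (A ω) a b n := by
    intro ε hε hε1
    obtain ⟨E, hE⟩ : ∃ E : ℕ → Set Ω, E = fun n => ⋃ v ∈ (range n ×ˢ range n).filter (fun v : ℕ × ℕ =>
        ((v.1 + v.2 + 2 : ℕ) : ℝ) * Real.log (Real.log n) ≤ (1 - ε) * Real.log n),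
        {ω | BC (n + 2) (K1 (n + 2) v.2 (n + 1 - n / 4 - n / 8) (n / 8)) (v.1 + 1) ∅ (n / 4) (n / 4 + n / 8) (range (n / 8)) id
          (r3 A ω)} := ⟨_, rfl⟩
    have hprob : ∀ᶠ n : ℕ in atTop, μ.real (E n) ≤ (n : ℝ) ^ (-2 : ℝ) := by
      filter_upwards [growth (C := 4) (by norm_num) hε, numeric (δ := ε / 2) (by positivity), eventually_ge_atTop 16,
        loglog_nat_top.eventually_ge_atTop 1, log_nat_top.eventually_ge_atTop 1] with n h1 h2 h3 h4 h5
      have hn0 : (0 : ℝ) < n := by exact_mod_cast (by omega : 0 < n)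
      have hn16 : (16 : ℝ) ≤ n := by exact_mod_cast h3
      obtain ⟨τ, hτ⟩ : ∃ τ : ℝ, τ = 1 / (2 * Real.log n) := ⟨_, rfl⟩
      have hτ0 : 0 < τ := by rw [hτ]; positivity
      have hτ1 : τ ≤ 1 := by
        rw [hτ, div_le_one (by positivity)]
        linarith
      have hτN : ∀ a : ℕ, 3 ≤ a → a < n + 2 → τ ≤ μ.real {ω | a ∈ r3 A ω} := by
        intro a ha haN
        rw [r3_prob hA ha, hτ]
        have ha0 : (3 : ℝ) ≤ a := by exact_mod_cast ha
        have h6 : 0 < Real.log (a : ℝ) := Real.log_pos (by linarith)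
        refine one_div_le_one_div_of_le h6 ?_
        have h7 : (a : ℝ) ≤ (n : ℝ) ^ 2 := by
          have : (a : ℝ) ≤ n + 2 := by exact_mod_cast haN.le
          nlinarith
        have h8 := Real.log_le_log (by linarith) h7
        rw [Real.log_pow] at h8
        exact_mod_cast h8
      have hH : ((n : ℝ)) / 16 ≤ ((n / 8 : ℕ) : ℝ) := by
        have h6 : n ≤ 16 * (n / 8) := by omega
        have h7 : (n : ℝ) ≤ 16 * ((n / 8 : ℕ) : ℝ) := by exact_mod_cast h6
        linarith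
      rw [hE]
      refine (measureReal_biUnion_finset_le _ _).trans ?_
      have hev : ∀ v ∈ (range n ×ˢ range n).filter (fun v : ℕ × ℕ =>
          ((v.1 + v.2 + 2 : ℕ) : ℝ) * Real.log (Real.log n) ≤ (1 - ε) * Real.log n),
          μ.real {ω | BC (n + 2) (K1 (n + 2) v.2 (n + 1 - n / 4 - n / 8) (n / 8)) (v.1 + 1) ∅ (n / 4) (n / 4 + n / 8)
            (range (n / 8)) id (r3 A ω)} ≤ (n : ℝ) ^ (-4 : ℝ) := by
        intro v hv
        rw [mem_filter] at hv
        obtain ⟨k, hk⟩ : ∃ k : ℕ, k = v.1 + v.2 + 2 := ⟨_, rfl⟩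
        have hv2 := hv.2
        rw [← hk] at hv2
        have h6 := two_chains (r3_indep hA) hτ0 hτ1 hτN v.1 v.2 (n / 4) (n + 1 - n / 4 - n / 8) (n / 8) (by omega)
        rw [← hk] at h6
        refine h6.trans ?_
        have hkL : (k : ℝ) ≤ Real.log n := by
          have h7 : (k : ℝ) * 1 ≤ k * Real.log (Real.log n) := mul_le_mul_of_nonneg_left h4 (Nat.cast_nonneg _)
          have h8 : (1 - ε) * Real.log n ≤ Real.log n := by nlinarith
          linarith
        have h7 := h2 k hkL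
        have h8 := h1 k hv2
        have h9 : (n : ℝ) ^ (ε / 2) / 16 ≤ ((n / 8 : ℕ) : ℝ) * (τ / 2) ^ k := by
          have e1 : (τ / 2) ^ k = 1 / (4 * Real.log n) ^ k := by
            rw [hτ, div_div, div_pow, one_pow]
            congr 2
            ring
          rw [e1]
          have e2 : 1 / (n : ℝ) ^ (1 - ε / 2) ≤ 1 / (4 * Real.log n) ^ k := one_div_le_one_div_of_le (by positivity) h8
          have e3 : (n : ℝ) ^ (ε / 2) = n * (1 / (n : ℝ) ^ (1 - ε / 2)) := by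
            rw [one_div, ← Real.rpow_neg hn0.le]
            nth_rw 2 [← Real.rpow_one (n : ℝ)]
            rw [← Real.rpow_add hn0]
            congr 1
            ring
          rw [e3]
          calc (n : ℝ) * (1 / (n : ℝ) ^ (1 - ε / 2)) / 16 = n / 16 * (1 / (n : ℝ) ^ (1 - ε / 2)) := by ring
            _ ≤ _ := mul_le_mul hH e2 (by positivity) (by positivity)
        have h10 : Real.exp (-(((n / 8 : ℕ) : ℝ) * (τ / 2) ^ k / 16)) ≤ Real.exp (-((n : ℝ) ^ (ε / 2) / 256)) := by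
          refine Real.exp_le_exp.2 ?_
          linarith
        have h11 : (((n + 2 : ℕ) : ℝ) + 1) = (n : ℝ) + 3 := by push_cast; ring
        rw [h11]
        have h12 : ((n : ℝ) + 3) ^ (2 * k) * (k * Real.exp (-(((n / 8 : ℕ) : ℝ) * (τ / 2) ^ k / 16))) ≤
            ((n : ℝ) + 3) ^ (2 * k) * (k * Real.exp (-((n : ℝ) ^ (ε / 2) / 256))) :=
          mul_le_mul_of_nonneg_left (mul_le_mul_of_nonneg_left h10 (Nat.cast_nonneg _)) (by positivity)
        refine h12.trans ?_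
        have e4 : (n : ℝ) ^ (-4 : ℝ) * (n : ℝ) ^ 2 = (n : ℝ) ^ (-2 : ℝ) := by
          rw [← Real.rpow_natCast (n : ℝ) 2, ← Real.rpow_add hn0]
          norm_num
        have e5 : (0 : ℝ) < (n : ℝ) ^ 2 := by positivity
        rw [← e4, mul_comm] at h7
        exact le_of_mul_le_mul_right h7 e5
      refine (sum_le_card_nsmul _ _ _ hev).trans ?_
      rw [nsmul_eq_mul]
      have h6 : ((((range n ×ˢ range n).filter (fun v : ℕ × ℕ =>
          ((v.1 + v.2 + 2 : ℕ) : ℝ) * Real.log (Real.log n) ≤ (1 - ε) * Real.log n)).card : ℕ) : ℝ) ≤ (n : ℝ) ^ 2 := by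
        have := card_filter_le (range n ×ˢ range n) (fun v : ℕ × ℕ =>
          ((v.1 + v.2 + 2 : ℕ) : ℝ) * Real.log (Real.log n) ≤ (1 - ε) * Real.log n)
        rw [card_product, card_range] at this
        rw [sq]
        exact_mod_cast this
      refine (mul_le_mul_of_nonneg_right h6 (by positivity)).trans (le_of_eq ?_)
      rw [← Real.rpow_natCast (n : ℝ) 2, ← Real.rpow_add hn0]
      norm_num
    have hbc : ∀ᵐ ω ∂μ, ∀ᶠ n in atTop, ω ∉ E n :=
      Pool.Agent.Q197.CI.bc hprob (Real.summable_nat_rpow.2 (by norm_num))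
    filter_upwards [hbc, ct_law hA] with ω h1 hct
    -- the law of the counts
    obtain ⟨x0, hx0⟩ : ∃ x0 : ℕ, ∀ x : ℕ, x0 ≤ x → (x : ℝ) / (2 * Real.log x) ≤ ct (r3 A ω) x := by
      have h2 := (hct.eventually_const_lt (show (1 / 2 : ℝ) < 1 by norm_num))
      obtain ⟨x0, h3⟩ := eventually_atTop.1 (h2.and (eventually_ge_atTop 3))
      refine ⟨x0, fun x hx => ?_⟩
      obtain ⟨h4, h5⟩ := h3 x hx
      have hx3 : (3 : ℝ) ≤ x := by exact_mod_cast h5
      have hlx : 0 < Real.log (x : ℝ) := Real.log_pos (by linarith)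
      rw [lt_div_iff₀ (by linarith)] at h4
      rw [ct_r3, div_le_iff₀ (by positivity)]
      linarith
    have hct2 : ∀ᶠ x : ℕ in atTop, (ct (A ω) x : ℝ) ≤ x / 16 := by
      filter_upwards [hct.eventually_lt_const (show (1 : ℝ) < 2 by norm_num), log_nat_top.eventually_ge_atTop 32,
        eventually_ge_atTop 1] with x h2 h3 h4
      have hx0 : (0 : ℝ) < x := by exact_mod_cast h4
      rw [div_lt_iff₀ hx0] at h2
      have h5 : (ct (A ω) x : ℝ) * 32 ≤ ct (A ω) x * Real.log x := mul_le_mul_of_nonneg_left h3 (Nat.cast_nonneg _)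
      linarith
    obtain ⟨x1, hx1⟩ := eventually_atTop.1 hct2
    have hbig : Tendsto (fun n : ℕ => (n : ℝ) ^ (ε / 2)) atTop atTop :=
      (tendsto_rpow_atTop (by positivity)).comp tendsto_natCast_atTop_atTop
    filter_upwards [h1, growth (C := 2) (by norm_num) hε, eventually_ge_atTop (2 * x1 + 64), eventually_ge_atTop 64,
      loglog_nat_top.eventually_ge_atTop 1, log_nat_top.eventually_ge_atTop 1,
      hbig.eventually_ge_atTop (8 * ((x0 : ℝ) + 3))] with n h2 h3 h4 h5 h6 h7 h8 a b hab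
    have hn0 : (0 : ℝ) < n := by exact_mod_cast (by omega : 0 < n)
    by_contra hcon
    apply h2
    rw [← isRep_r3] at hcon
    obtain ⟨k, hk⟩ : ∃ k : ℕ, k = a + b + 2 := ⟨_, rfl⟩
    have hab' := hab
    rw [← hk] at hab'
    have hkL : (k : ℝ) ≤ Real.log n := by
      have h9 : (k : ℝ) * 1 ≤ k * Real.log (Real.log n) := mul_le_mul_of_nonneg_left h6 (Nat.cast_nonneg _)
      have h10 : (1 - ε) * Real.log n ≤ Real.log n := by nlinarith
      linarith
    have hkn : k < n := by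
      have h9 := Real.log_le_sub_one_of_pos hn0
      have : (k : ℝ) < n := by linarith
      exact_mod_cast this
    have hchain := chain_of_not_rep (S := r3 A ω) (N := n + 2) (n := n) (a := a) (b := b) (c := n / 4)
      (e := n + 1 - n / 4 - n / 8) (H := n / 8) (by omega) (by omega) (by omega) (by omega) ?_ ?_ hcon
    · rw [hE]
      simp only [Set.mem_iUnion, exists_prop]
      refine ⟨(a, b), ?_, hchain⟩
      rw [mem_filter, mem_product, mem_range, mem_range]
      exact ⟨⟨by simp only; omega, by simp only; omega⟩, hab⟩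
    · -- the position of the second block
      have h9 : n + 1 - n / 4 - n / 8 + n / 8 = n + 1 - n / 4 := by omega
      rw [h9]
      have h10 := hx1 (n + 1 - n / 4) (by omega)
      unfold fs
      rw [ct_r3]
      have h11 : 16 * ct (A ω) (n + 1 - n / 4) ≤ n + 1 - n / 4 := by
        have : (16 : ℝ) * ct (A ω) (n + 1 - n / 4) ≤ ((n + 1 - n / 4 : ℕ) : ℝ) := by linarith
        exact_mod_cast this
      omega
    · intro j hj
      have hjk : j ≤ k := by
        rw [hk]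
        omega
      have h9 := h3 k hab'
      have hc8 : (n : ℝ) / 8 ≤ ((n / 4 : ℕ) : ℝ) := by
        have h10 : n ≤ 8 * (n / 4) := by omega
        have h11 : (n : ℝ) ≤ 8 * ((n / 4 : ℕ) : ℝ) := by exact_mod_cast h10
        linarith
      have h10 : ((x0 : ℝ) + 3) ≤ ((n / 4 : ℕ) : ℝ) / (2 * Real.log n) ^ j := by
        have e0 : (2 * Real.log n) ^ j ≤ (2 * Real.log (n : ℝ)) ^ k := pow_le_pow_right₀ (by linarith) hjk
        have e1 : ((n / 4 : ℕ) : ℝ) / (n : ℝ) ^ (1 - ε / 2) ≤ ((n / 4 : ℕ) : ℝ) / (2 * Real.log n) ^ j :=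
          div_le_div_of_nonneg_left (Nat.cast_nonneg _) (by positivity) (e0.trans h9)
        refine le_trans ?_ e1
        have e2 : (n : ℝ) / 8 / (n : ℝ) ^ (1 - ε / 2) ≤ ((n / 4 : ℕ) : ℝ) / (n : ℝ) ^ (1 - ε / 2) :=
          div_le_div_of_nonneg_right hc8 (by positivity)
        refine le_trans ?_ e2
        have e3 : (n : ℝ) ^ (ε / 2) = n / (n : ℝ) ^ (1 - ε / 2) := by
          rw [eq_div_iff (by positivity), ← Real.rpow_add hn0]
          have e5 : ε / 2 + (1 - ε / 2) = 1 := by ring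
          rw [e5, Real.rpow_one]
        have e4 : (n : ℝ) / 8 / (n : ℝ) ^ (1 - ε / 2) = (n : ℝ) ^ (ε / 2) / 8 := by
          rw [e3]
          ring
        rw [e4]
        linarith
      have hx03 : (3 : ℝ) ≤ (x0 : ℝ) + 3 := by
        have : (0 : ℝ) ≤ x0 := Nat.cast_nonneg _
        linarith
      have h11 := it_lower (S := r3 A ω) hx03 (fun x hx => hx0 x (by
          have h12 : (x0 : ℝ) ≤ x := by linarith
          exact_mod_cast h12)) (c := n / 4) (L := Real.log n) h7 (by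
            rcases Nat.eq_zero_or_pos (n / 4) with h12 | h12
            · rw [h12, Nat.cast_zero, Real.log_zero]
              linarith
            · refine Real.log_le_log (by exact_mod_cast h12) ?_
              exact_mod_cast Nat.div_le_self n 4) j h10
      have h12 : (3 : ℝ) ≤ (((fs (r3 A ω))^[j] (n / 4) : ℕ) : ℝ) := by linarith
      exact_mod_cast h12
  have h2 : ∀ᵐ ω ∂μ, ∀ i : ℕ, ∀ᶠ n : ℕ in atTop, ∀ a b : ℕ,
      ((a + b + 2 : ℕ) : ℝ) * Real.log (Real.log n) ≤ (1 - 1 / ((i : ℝ) + 1)) * Real.log n → IsRep (A ω) a b n := by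
    rw [ae_all_iff]
    intro i
    refine key _ (by positivity) ?_
    rw [div_le_one (by positivity)]
    have : (0 : ℝ) ≤ i := Nat.cast_nonneg _
    linarith
  filter_upwards [h2] with ω h3 ε hε
  obtain ⟨i, hi⟩ := exists_nat_one_div_lt hε
  filter_upwards [h3 i, log_nat_top.eventually_ge_atTop 0] with n h4 h5 a b hab
  refine h4 a b (hab.trans ?_)
  exact mul_le_mul_of_nonneg_right (by linarith) h5

end Pool.Agent.Q197.IT
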